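import Pool.Agent.H25.MZ.Targets

/-!
Module MV: a mean value theorem with slowly varying weights.
-/

set_option autoImplicit false

open Complex MeasureTheory Set intervalIntegral

namespace Pool.Agent.H39.MZ

open Pool.Agent.H25.DL Pool.Agent.H25.HK Pool.Agent.H23.GLH Pool.Agent.H25.MZ

/-- an oscillating integral with a slowly varying amplitude -/
lemma osc {x₀ x₁ V L : ℝ} (h01 : x₀ < x₁) (hL : L ≠ 0) {G G' : ℝ → ℂ}
    (hG : ∀ x ∈ Icc x₀ x₁, HasDerivAt G (G' x) x) (hG' : ContinuousOn G' (Icc x₀ x₁))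
    (hb : ∀ x ∈ Icc x₀ x₁, ‖G x‖ ≤ 1) (hb' : ∀ x ∈ Icc x₀ x₁, ‖G' x‖ * (x₁ - x₀) ≤ V) :
    ‖∫ x in x₀..x₁, G x * cexp (((L * x : ℝ) : ℂ) * I)‖ ≤ (2 + V) / |L| := by
  have hu : uIcc x₀ x₁ = Icc x₀ x₁ := uIcc_of_le h01.le
  have hLI : ((L : ℂ) * I) ≠ 0 := mul_ne_zero (by exact_mod_cast hL) I_ne_zero
  have hv : ∀ x : ℝ, HasDerivAt (fun x : ℝ => cexp (((L * x : ℝ) : ℂ) * I) / ((L : ℂ) * I))
      (cexp (((L * x : ℝ) : ℂ) * I)) x := by
    intro x
    have h1 : HasDerivAt (fun x : ℝ => ((L * x : ℝ) : ℂ) * I) ((L : ℂ) * I) x := by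
      have h2 : HasDerivAt (fun x : ℝ => ((L * x : ℝ) : ℂ)) ((L : ℝ) : ℂ) x := by
        have h3 : HasDerivAt (fun x : ℝ => L * x) L x := by
          simpa using (hasDerivAt_id x).const_mul L
        exact h3.ofReal_comp
      exact h2.mul_const I
    have h4 := (h1.cexp).div_const ((L : ℂ) * I)
    rwa [mul_div_assoc, div_self hLI, mul_one] at h4
  have hcont : Continuous fun x : ℝ => cexp (((L * x : ℝ) : ℂ) * I) := by fun_prop
  have hGi : IntervalIntegrable G' volume x₀ x₁ := by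
    apply ContinuousOn.intervalIntegrable
    rw [hu]
    exact hG'
  have key := integral_mul_deriv_eq_deriv_mul (a := x₀) (b := x₁)
    (fun x hx => hG x (hu ▸ hx)) (fun x _ => hv x) hGi (hcont.intervalIntegrable _ _)
  rw [key]
  have hn : ∀ x : ℝ, ‖cexp (((L * x : ℝ) : ℂ) * I) / ((L : ℂ) * I)‖ = 1 / |L| := by
    intro x
    rw [norm_div, Complex.norm_exp_ofReal_mul_I, norm_mul, Complex.norm_I, mul_one,
      Complex.norm_real, Real.norm_eq_abs]
  have hLp : 0 < |L| := abs_pos.2 hL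
  have hi : ‖∫ x in x₀..x₁, G' x * (cexp (((L * x : ℝ) : ℂ) * I) / ((L : ℂ) * I))‖ ≤
      V / |L| := by
    have h5 : ∀ x ∈ Set.uIoc x₀ x₁, ‖G' x * (cexp (((L * x : ℝ) : ℂ) * I) / ((L : ℂ) * I))‖ ≤
        V / (x₁ - x₀) / |L| := by
      intro x hx
      rw [uIoc_of_le h01.le] at hx
      have hx' : x ∈ Icc x₀ x₁ := Ioc_subset_Icc_self hx
      rw [norm_mul, hn]
      have h6 : ‖G' x‖ ≤ V / (x₁ - x₀) := by
        rw [le_div_iff₀ (sub_pos.2 h01)]
        exact hb' x hx'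
      calc ‖G' x‖ * (1 / |L|) ≤ V / (x₁ - x₀) * (1 / |L|) := by gcongr
        _ = V / (x₁ - x₀) / |L| := by ring
    have h7 := norm_integral_le_of_norm_le_const h5
    calc _ ≤ V / (x₁ - x₀) / |L| * |x₁ - x₀| := h7
      _ = V / |L| := by
        rw [abs_of_pos (sub_pos.2 h01)]
        have : x₁ - x₀ ≠ 0 := (sub_pos.2 h01).ne'
        field_simp
  have h1 : ‖G x₁ * (cexp (((L * x₁ : ℝ) : ℂ) * I) / ((L : ℂ) * I))‖ ≤ 1 / |L| := by
    rw [norm_mul, hn]
    calc _ ≤ 1 * (1 / |L|) := by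
          gcongr
          exact hb x₁ ⟨h01.le, le_refl _⟩
      _ = 1 / |L| := one_mul _
  have h0 : ‖G x₀ * (cexp (((L * x₀ : ℝ) : ℂ) * I) / ((L : ℂ) * I))‖ ≤ 1 / |L| := by
    rw [norm_mul, hn]
    calc _ ≤ 1 * (1 / |L|) := by
          gcongr
          exact hb x₀ ⟨le_refl _, h01.le⟩
      _ = 1 / |L| := one_mul _
  calc _ ≤ ‖G x₁ * (cexp (((L * x₁ : ℝ) : ℂ) * I) / ((L : ℂ) * I))‖ +
        ‖G x₀ * (cexp (((L * x₀ : ℝ) : ℂ) * I) / ((L : ℂ) * I))‖ +
        ‖∫ x in x₀..x₁, G' x * (cexp (((L * x : ℝ) : ℂ) * I) / ((L : ℂ) * I))‖ :=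
        (norm_sub_le _ _).trans (by gcongr; exact norm_sub_le _ _)
    _ ≤ 1 / |L| + 1 / |L| + V / |L| := by gcongr
    _ = (2 + V) / |L| := by ring

/-- harmonic sums around a point -/
lemma sum_inv_dist (N k : ℕ) (hN : 1 ≤ N) (hk : k ∈ Finset.Icc 1 N) :
    ∑ l ∈ (Finset.Icc 1 N).erase k, (1 : ℝ) / |(k : ℝ) - l| ≤ 6 * Real.log (N + 1) := by
  classical
  rw [Finset.mem_Icc] at hk
  have hH : ∑ j ∈ Finset.Icc 1 N, (1 : ℝ) / j ≤ 1 + Real.log N := by
    have h1 := harmonic_le_one_add_log N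
    have h2 : ((harmonic N : ℚ) : ℝ) = ∑ j ∈ Finset.Icc 1 N, (1 : ℝ) / j := by
      rw [harmonic_eq_sum_Icc]
      push_cast
      simp [one_div]
    rw [← h2]
    exact h1
  have hgen : ∀ (A : Finset ℕ) (φ : ℕ → ℕ), (∀ l ∈ A, 1 ≤ φ l ∧ φ l ≤ N) →
      (∀ l ∈ A, ∀ l' ∈ A, φ l = φ l' → l = l') →
      (∀ l ∈ A, |(k : ℝ) - l| = (φ l : ℝ)) →
      ∑ l ∈ A, (1 : ℝ) / |(k : ℝ) - l| ≤ ∑ j ∈ Finset.Icc 1 N, (1 : ℝ) / j := by
    intro A φ h1 h2 h3
    calc ∑ l ∈ A, (1 : ℝ) / |(k : ℝ) - l| = ∑ l ∈ A, (1 : ℝ) / (φ l : ℝ) :=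
          Finset.sum_congr rfl fun l hl => by rw [h3 l hl]
      _ = ∑ j ∈ A.image φ, (1 : ℝ) / (j : ℝ) := by
          rw [Finset.sum_image (f := fun j : ℕ => (1 : ℝ) / (j : ℝ))]
          intro x hx y hy
          exact h2 x hx y hy
      _ ≤ ∑ j ∈ Finset.Icc 1 N, (1 : ℝ) / j := by
          apply Finset.sum_le_sum_of_subset_of_nonneg
          · intro j hj
            obtain ⟨l, hl, rfl⟩ := Finset.mem_image.1 hj
            exact Finset.mem_Icc.2 (h1 l hl)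
          · intro j _ _
            positivity
  have e1 : (Finset.Icc 1 N).erase k = ((Finset.Icc 1 N).filter (· < k)) ∪
      ((Finset.Icc 1 N).filter (k < ·)) := by
    ext l
    simp only [Finset.mem_erase, Finset.mem_union, Finset.mem_filter]
    constructor
    · rintro ⟨h1, h2⟩
      rcases lt_or_gt_of_ne h1 with h | h
      · exact Or.inl ⟨h2, h⟩
      · exact Or.inr ⟨h2, h⟩
    · rintro (⟨h1, h2⟩ | ⟨h1, h2⟩)
      · exact ⟨by omega, h1⟩
      · exact ⟨by omega, h1⟩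
  have hdisj : Disjoint ((Finset.Icc 1 N).filter (· < k)) ((Finset.Icc 1 N).filter (k < ·)) := by
    rw [Finset.disjoint_left]
    intro l h1 h2
    have := (Finset.mem_filter.1 h1).2
    have := (Finset.mem_filter.1 h2).2
    omega
  rw [e1, Finset.sum_union hdisj]
  have b1 : ∑ l ∈ (Finset.Icc 1 N).filter (· < k), (1 : ℝ) / |(k : ℝ) - l| ≤
      ∑ j ∈ Finset.Icc 1 N, (1 : ℝ) / j := by
    apply hgen _ (fun l => k - l)
    · intro l hl
      have h1 := Finset.mem_Icc.1 (Finset.mem_filter.1 hl).1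
      have h2 := (Finset.mem_filter.1 hl).2
      omega
    · intro l hl l' hl' h
      have h2 := (Finset.mem_filter.1 hl).2
      have h2' := (Finset.mem_filter.1 hl').2
      omega
    · intro l hl
      have h2 := (Finset.mem_filter.1 hl).2
      rw [Nat.cast_sub h2.le, abs_of_pos]
      have : (l : ℝ) < k := by exact_mod_cast h2
      linarith
  have b2 : ∑ l ∈ (Finset.Icc 1 N).filter (k < ·), (1 : ℝ) / |(k : ℝ) - l| ≤
      ∑ j ∈ Finset.Icc 1 N, (1 : ℝ) / j := by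
    apply hgen _ (fun l => l - k)
    · intro l hl
      have h1 := Finset.mem_Icc.1 (Finset.mem_filter.1 hl).1
      have h2 := (Finset.mem_filter.1 hl).2
      omega
    · intro l hl l' hl' h
      have h2 := (Finset.mem_filter.1 hl).2
      have h2' := (Finset.mem_filter.1 hl').2
      omega
    · intro l hl
      have h2 := (Finset.mem_filter.1 hl).2
      rw [Nat.cast_sub h2.le, abs_sub_comm, abs_of_pos]
      have : (k : ℝ) < l := by exact_mod_cast h2
      linarith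
  have hlog2 : (0.69 : ℝ) ≤ Real.log (N + 1) := by
    have h1 : Real.log 2 ≤ Real.log (N + 1) := by
      apply Real.log_le_log (by norm_num)
      have : (1 : ℝ) ≤ N := by exact_mod_cast hN
      linarith
    have h2 := Real.log_two_gt_d9
    linarith
  have hlogN : Real.log N ≤ Real.log (N + 1) := by
    apply Real.log_le_log
    · have : (1 : ℝ) ≤ N := by exact_mod_cast hN
      linarith
    · linarith
  nlinarith

/-- the frequencies are separated -/
lemma log_sep {N k l : ℕ} (hk : k ∈ Finset.Icc 1 N) (hl : l ∈ Finset.Icc 1 N) (h : k ≠ l) :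
    |(k : ℝ) - l| / N ≤ |Real.log l - Real.log k| ∧ 0 < |(k : ℝ) - l| / N := by
  wlog hkl : k < l with H
  · have h2 := H hl hk (Ne.symm h) (by omega)
    rw [abs_sub_comm (l : ℝ) k, abs_sub_comm (Real.log k)] at h2
    exact h2
  rw [Finset.mem_Icc] at hk hl
  have k0 : (0 : ℝ) < k := by exact_mod_cast hk.1
  have l0 : (0 : ℝ) < l := by exact_mod_cast hl.1
  have hkl' : (k : ℝ) < l := by exact_mod_cast hkl
  have lN : (l : ℝ) ≤ N := by exact_mod_cast hl.2
  have N0 : (0 : ℝ) < N := l0.trans_le lN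
  have hlog : Real.log k < Real.log l := Real.log_lt_log k0 hkl'
  rw [abs_sub_comm (k : ℝ), abs_of_pos (sub_pos.2 hkl'), abs_of_pos (sub_pos.2 hlog)]
  refine ⟨?_, div_pos (sub_pos.2 hkl') N0⟩
  have h1 := Real.log_le_sub_one_of_pos (div_pos k0 l0)
  rw [Real.log_div k0.ne' l0.ne'] at h1
  have h2 : ((l : ℝ) - k) / N ≤ (l - k) / l := by
    apply div_le_div_of_nonneg_left (by linarith) l0 lN
  have h3 : ((l : ℝ) - k) / l = 1 - k / l := by
    field_simp
  linarith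

/-- the mean value theorem (correctly parenthesised) -/
theorem mv : ∃ C : ℝ, 0 < C ∧ ∀ (N : ℕ) (a : ℕ → ℂ) (g g' : ℕ → ℝ → ℂ) (x₀ x₁ V : ℝ), 1 ≤ N →
    x₀ ≤ x₁ → 0 ≤ V → (∀ k, ∀ x ∈ Icc x₀ x₁, HasDerivAt (g k) (g' k x) x) →
    (∀ k, ContinuousOn (g' k) (Icc x₀ x₁)) → (∀ k, ∀ x ∈ Icc x₀ x₁, ‖g k x‖ ≤ 1) →
    (∀ k, ∀ x ∈ Icc x₀ x₁, ‖g' k x‖ * (x₁ - x₀) ≤ V) →
    ∫ x in x₀..x₁, ‖∑ k ∈ Finset.Icc 1 N, a k * g k x *
        cexp (((-(x * Real.log k) : ℝ) : ℂ) * I)‖ ^ 2 ≤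
      (∑ k ∈ Finset.Icc 1 N, ‖a k‖ ^ 2 * ∫ x in x₀..x₁, ‖g k x‖ ^ 2) +
      C * (1 + V) * N * Real.log (N + 1) * ∑ k ∈ Finset.Icc 1 N, ‖a k‖ ^ 2 := by
  classical
  refine ⟨12, by norm_num, ?_⟩
  intro N a g g' x₀ x₁ V hN h01 hV hg hg' hb hb'
  rcases h01.eq_or_lt with rfl | h01'
  · simp only [intervalIntegral.integral_same, mul_zero, Finset.sum_const_zero]
    have h1 : 0 ≤ Real.log ((N : ℝ) + 1) := Real.log_nonneg (by
      have : (0 : ℝ) ≤ N := Nat.cast_nonneg N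
      linarith)
    positivity
  set S := Finset.Icc 1 N with hS
  set E : ℕ → ℝ → ℂ := fun k x => cexp (((-(x * Real.log k) : ℝ) : ℂ) * I) with hE
  have hu : uIcc x₀ x₁ = Icc x₀ x₁ := uIcc_of_le h01
  have hgc : ∀ k, ContinuousOn (g k) (uIcc x₀ x₁) := fun k => by
    rw [hu]
    exact fun x hx => (hg k x hx).continuousAt.continuousWithinAt
  have hEc : ∀ k, Continuous (E k) := fun k => by
    simp only [hE]
    fun_prop
  set Hf : ℕ → ℕ → ℝ → ℂ := fun k l x => (a k * g k x * E k x) *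
    (starRingEnd ℂ) (a l * g l x * E l x) with hHf
  have hHc : ∀ k l, ContinuousOn (Hf k l) (uIcc x₀ x₁) := by
    intro k l
    simp only [hHf]
    apply ContinuousOn.mul
    · exact (continuousOn_const.mul (hgc k)).mul (hEc k).continuousOn
    · exact Complex.continuous_conj.comp_continuousOn
        ((continuousOn_const.mul (hgc l)).mul (hEc l).continuousOn)
  have hHi : ∀ k l, IntervalIntegrable (Hf k l) volume x₀ x₁ :=
    fun k l => (hHc k l).intervalIntegrable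
  have hexp : ∀ x, ((‖∑ k ∈ S, a k * g k x * E k x‖ ^ 2 : ℝ) : ℂ) =
      ∑ k ∈ S, ∑ l ∈ S, Hf k l x := by
    intro x
    rw [← Complex.normSq_eq_norm_sq, ← Complex.mul_conj, map_sum, Finset.sum_mul_sum]
  have hint : ((∫ x in x₀..x₁, ‖∑ k ∈ S, a k * g k x * E k x‖ ^ 2 : ℝ) : ℂ) =
      ∑ k ∈ S, ∑ l ∈ S, ∫ x in x₀..x₁, Hf k l x := by
    rw [← intervalIntegral.integral_ofReal]
    simp_rw [hexp]
    rw [intervalIntegral.integral_finsetSum]
    · refine Finset.sum_congr rfl fun k _ => ?_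
      rw [intervalIntegral.integral_finsetSum]
      exact fun l _ => hHi k l
    · intro k _
      exact (continuousOn_finsetSum S fun l _ => hHc k l).intervalIntegrable
  -- diagonal
  have hdiag : ∀ k, ∫ x in x₀..x₁, Hf k k x = ((‖a k‖ ^ 2 * ∫ x in x₀..x₁, ‖g k x‖ ^ 2 : ℝ) : ℂ) := by
    intro k
    rw [← intervalIntegral.integral_const_mul, ← intervalIntegral.integral_ofReal]
    refine intervalIntegral.integral_congr fun x _ => ?_
    simp only [hHf]
    rw [Complex.mul_conj, Complex.normSq_eq_norm_sq, norm_mul, norm_mul]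
    simp only [hE]
    rw [Complex.norm_exp_ofReal_mul_I]
    push_cast
    ring
  -- off-diagonal
  have hoff : ∀ k ∈ S, ∀ l ∈ S, k ≠ l → ‖∫ x in x₀..x₁, Hf k l x‖ ≤
      (‖a k‖ ^ 2 + ‖a l‖ ^ 2) * ((1 + V) * N * (1 / |(k : ℝ) - l|)) := by
    intro k hk l hl hkl
    obtain ⟨hs1, hs2⟩ := log_sep hk hl hkl
    set L : ℝ := Real.log l - Real.log k with hL
    have hLpos : 0 < |L| := hs2.trans_le hs1
    have hLne : L ≠ 0 := abs_pos.1 hLpos
    have e1 : ∀ x, Hf k l x = a k * (starRingEnd ℂ) (a l) *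
        ((g k x * (starRingEnd ℂ) (g l x)) * cexp (((L * x : ℝ) : ℂ) * I)) := by
      intro x
      simp only [hHf, hE, map_mul, ← Complex.exp_conj, Complex.conj_ofReal, Complex.conj_I]
      have : cexp (((L * x : ℝ) : ℂ) * I) = cexp (((-(x * Real.log k) : ℝ) : ℂ) * I) *
          cexp (((-(x * Real.log l) : ℝ) : ℂ) * -I) := by
        rw [← Complex.exp_add]
        congr 1
        simp only [hL]
        push_cast
        ring
      rw [this]
      ring
    have hG : ∀ x ∈ Icc x₀ x₁, HasDerivAt (fun x => g k x * (starRingEnd ℂ) (g l x))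
        (g' k x * (starRingEnd ℂ) (g l x) + g k x * (starRingEnd ℂ) (g' l x)) x := by
      intro x hx
      have h1 := hg k x hx
      have h2 : HasDerivAt (fun x => (starRingEnd ℂ) (g l x)) ((starRingEnd ℂ) (g' l x)) x :=
        (hg l x hx).star_conj
      exact h1.mul h2
    have ho := osc (V := 2 * V) h01' hLne hG
      (by
        apply ContinuousOn.add
        · exact (hg' k).mul (Complex.continuous_conj.comp_continuousOn (hu ▸ hgc l))
        · exact (hu ▸ hgc k).mul (Complex.continuous_conj.comp_continuousOn (hg' l)))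
      (by
        intro x hx
        rw [norm_mul, RCLike.norm_conj]
        exact mul_le_one₀ (hb k x hx) (norm_nonneg _) (hb l x hx))
      (by
        intro x hx
        have h1 := hb' k x hx
        have h2 := hb' l x hx
        have h3 : ‖g' k x * (starRingEnd ℂ) (g l x) + g k x * (starRingEnd ℂ) (g' l x)‖ ≤
            ‖g' k x‖ + ‖g' l x‖ := by
          refine (norm_add_le _ _).trans ?_
          rw [norm_mul, norm_mul, RCLike.norm_conj, RCLike.norm_conj]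
          have h4 := hb k x hx
          have h5 := hb l x hx
          nlinarith [norm_nonneg (g' k x), norm_nonneg (g' l x)]
        have h6 : 0 ≤ x₁ - x₀ := by linarith
        nlinarith)
    have e2 : ∫ x in x₀..x₁, Hf k l x = a k * (starRingEnd ℂ) (a l) *
        ∫ x in x₀..x₁, (g k x * (starRingEnd ℂ) (g l x)) * cexp (((L * x : ℝ) : ℂ) * I) := by
      rw [← intervalIntegral.integral_const_mul]
      exact intervalIntegral.integral_congr fun x _ => e1 x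
    rw [e2, norm_mul, norm_mul, RCLike.norm_conj]
    have N0 : (0 : ℝ) < N := by exact_mod_cast hN
    have hd : 0 < |(k : ℝ) - l| := by
      by_contra h
      have : |(k : ℝ) - l| = 0 := le_antisymm (not_lt.1 h) (abs_nonneg _)
      rw [this] at hs2
      simp at hs2
    have h7 : (2 + 2 * V) / |L| ≤ 2 * ((1 + V) * N * (1 / |(k : ℝ) - l|)) := by
      calc (2 + 2 * V) / |L| ≤ (2 + 2 * V) / (|(k : ℝ) - l| / N) := by
            apply div_le_div_of_nonneg_left (by linarith) hs2 hs1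
        _ = 2 * ((1 + V) * N * (1 / |(k : ℝ) - l|)) := by
            field_simp
    have h8 : ‖a k‖ * ‖a l‖ * 2 ≤ ‖a k‖ ^ 2 + ‖a l‖ ^ 2 := by
      nlinarith [sq_nonneg (‖a k‖ - ‖a l‖)]
    have h9 : 0 ≤ (1 + V) * N * (1 / |(k : ℝ) - l|) := by positivity
    calc _ ≤ ‖a k‖ * ‖a l‖ * (2 * ((1 + V) * N * (1 / |(k : ℝ) - l|))) := by
          gcongr
          exact ho.trans h7
      _ = (‖a k‖ * ‖a l‖ * 2) * ((1 + V) * N * (1 / |(k : ℝ) - l|)) := by ring
      _ ≤ _ := by gcongr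
  -- conclusion
  have hre : ∫ x in x₀..x₁, ‖∑ k ∈ S, a k * g k x * E k x‖ ^ 2 =
      (∑ k ∈ S, ‖a k‖ ^ 2 * ∫ x in x₀..x₁, ‖g k x‖ ^ 2) +
        (∑ k ∈ S, ∑ l ∈ S.erase k, ∫ x in x₀..x₁, Hf k l x).re := by
    have h1 := congrArg Complex.re hint
    rw [Complex.ofReal_re] at h1
    rw [h1]
    have h2 : ∑ k ∈ S, ∑ l ∈ S, ∫ x in x₀..x₁, Hf k l x =
        ∑ k ∈ S, (∫ x in x₀..x₁, Hf k k x) +
          ∑ k ∈ S, ∑ l ∈ S.erase k, ∫ x in x₀..x₁, Hf k l x := by
      rw [← Finset.sum_add_distrib]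
      refine Finset.sum_congr rfl fun k hk => ?_
      rw [Finset.add_sum_erase S (fun l => ∫ x in x₀..x₁, Hf k l x) hk]
    rw [h2, Complex.add_re]
    congr 1
    simp_rw [hdiag]
    rw [Complex.re_sum]
    simp only [Complex.ofReal_re]
  rw [hre]
  have hbound : ‖∑ k ∈ S, ∑ l ∈ S.erase k, ∫ x in x₀..x₁, Hf k l x‖ ≤
      12 * (1 + V) * N * Real.log (N + 1) * ∑ k ∈ S, ‖a k‖ ^ 2 := by
    have h1 : ‖∑ k ∈ S, ∑ l ∈ S.erase k, ∫ x in x₀..x₁, Hf k l x‖ ≤
        ∑ k ∈ S, ∑ l ∈ S.erase k,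
          (‖a k‖ ^ 2 + ‖a l‖ ^ 2) * ((1 + V) * N * (1 / |(k : ℝ) - l|)) := by
      refine (norm_sum_le _ _).trans (Finset.sum_le_sum fun k hk => ?_)
      refine (norm_sum_le _ _).trans (Finset.sum_le_sum fun l hl => ?_)
      rw [Finset.mem_erase] at hl
      exact hoff k hk l hl.2 (Ne.symm hl.1)
    have h2 : ∑ k ∈ S, ∑ l ∈ S.erase k,
        (‖a k‖ ^ 2 + ‖a l‖ ^ 2) * ((1 + V) * N * (1 / |(k : ℝ) - l|)) =
        2 * ∑ k ∈ S, ‖a k‖ ^ 2 * ((1 + V) * N * ∑ l ∈ S.erase k, 1 / |(k : ℝ) - l|) := by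
      have h3 : ∑ k ∈ S, ∑ l ∈ S.erase k, ‖a l‖ ^ 2 * ((1 + V) * N * (1 / |(k : ℝ) - l|)) =
          ∑ k ∈ S, ∑ l ∈ S.erase k, ‖a k‖ ^ 2 * ((1 + V) * N * (1 / |(k : ℝ) - l|)) := by
        rw [Finset.sum_comm' (s' := fun k => S.erase k) (t' := S)]
        · refine Finset.sum_congr rfl fun k _ => Finset.sum_congr rfl fun l _ => ?_
          rw [abs_sub_comm]
        · intro x y
          simp only [Finset.mem_erase]
          constructor
          · rintro ⟨h1, h2, h3⟩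
            exact ⟨⟨Ne.symm h2, h1⟩, h3⟩
          · rintro ⟨⟨h1, h2⟩, h3⟩
            exact ⟨h2, Ne.symm h1, h3⟩
      have h4 : ∀ k l : ℕ, (‖a k‖ ^ 2 + ‖a l‖ ^ 2) * ((1 + V) * N * (1 / |(k : ℝ) - l|)) =
          ‖a k‖ ^ 2 * ((1 + V) * N * (1 / |(k : ℝ) - l|)) +
          ‖a l‖ ^ 2 * ((1 + V) * N * (1 / |(k : ℝ) - l|)) := fun k l => add_mul _ _ _
      simp_rw [h4, Finset.sum_add_distrib]
      rw [h3, ← two_mul]
      congr 1
      refine Finset.sum_congr rfl fun k _ => ?_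
      rw [← Finset.mul_sum, ← Finset.mul_sum]
    rw [h2] at h1
    refine h1.trans ?_
    have N0 : (0 : ℝ) < N := by exact_mod_cast hN
    calc 2 * ∑ k ∈ S, ‖a k‖ ^ 2 * ((1 + V) * N * ∑ l ∈ S.erase k, 1 / |(k : ℝ) - l|) ≤
        2 * ∑ k ∈ S, ‖a k‖ ^ 2 * ((1 + V) * N * (6 * Real.log (N + 1))) := by
          gcongr with k hk
          exact sum_inv_dist N k hN hk
      _ = 12 * (1 + V) * N * Real.log (N + 1) * ∑ k ∈ S, ‖a k‖ ^ 2 := by
          rw [← Finset.sum_mul]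
          ring
  have := (Complex.re_le_norm _).trans hbound
  linarith

end Pool.Agent.H39.MZ
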