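import Pool.Agent.H39.MZ.Approx
import Pool.Agent.H39.MZ.MV

/-!
Module MS: mean square of the smoothed local averages.
-/

set_option autoImplicit false

open Complex MeasureTheory Set Filter

namespace Pool.Agent.H39.MZ

open Pool.Agent.H24.MR (nit)
open Pool.Agent.H25.DL Pool.Agent.H25.HK Pool.Agent.H25.MZ
open Pool.Agent.H19.DL

/-- powers of the logarithm are small -/
lemma log_small (c s : ℝ) {r : ℝ} (hr : 0 < r) :
    ∀ᶠ T : ℝ in atTop, c * Real.log T ^ s ≤ T ^ r := by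
  have h := (isLittleO_log_rpow_rpow_atTop s hr).bound (c := 1 / (|c| + 1)) (by positivity)
  filter_upwards [h, eventually_ge_atTop (Real.exp 1)] with T hT hT1
  have hT0 : 0 < T := (Real.exp_pos 1).trans_le hT1
  have hlog : 1 ≤ Real.log T := (Real.le_log_iff_exp_le hT0).2 hT1
  have hl0 : 0 ≤ Real.log T ^ s := Real.rpow_nonneg (by linarith) _
  rw [Real.norm_of_nonneg hl0, Real.norm_of_nonneg (by positivity)] at hT
  have h1 : (|c| + 1) * Real.log T ^ s ≤ T ^ r := by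
    rw [div_mul_eq_mul_div, one_mul, le_div_iff₀ (by positivity)] at hT
    linarith
  have h2 : c * Real.log T ^ s ≤ (|c| + 1) * Real.log T ^ s := by
    apply mul_le_mul_of_nonneg_right _ hl0
    linarith [le_abs_self c]
  linarith

/-- the main estimate, with all parameters explicit -/
lemma core {Cmv : ℝ} (hCmv : 0 < Cmv)
    (hmv : ∀ (N : ℕ) (a : ℕ → ℂ) (g g' : ℕ → ℝ → ℂ) (x₀ x₁ V : ℝ), 1 ≤ N →
    x₀ ≤ x₁ → 0 ≤ V → (∀ k, ∀ x ∈ Icc x₀ x₁, HasDerivAt (g k) (g' k x) x) →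
    (∀ k, ContinuousOn (g' k) (Icc x₀ x₁)) → (∀ k, ∀ x ∈ Icc x₀ x₁, ‖g k x‖ ≤ 1) →
    (∀ k, ∀ x ∈ Icc x₀ x₁, ‖g' k x‖ * (x₁ - x₀) ≤ V) →
    ∫ x in x₀..x₁, ‖∑ k ∈ Finset.Icc 1 N, a k * g k x *
        cexp (((-(x * Real.log k) : ℝ) : ℂ) * I)‖ ^ 2 ≤
      (∑ k ∈ Finset.Icc 1 N, ‖a k‖ ^ 2 * ∫ x in x₀..x₁, ‖g k x‖ ^ 2) +
      Cmv * (1 + V) * N * Real.log (N + 1) * ∑ k ∈ Finset.Icc 1 N, ‖a k‖ ^ 2)
    {N : ℕ} (hN : 1 ≤ N) {a : ℕ → ℂ} {Yt : ℝ → ℂ} (hY : Continuous Yt) {κ : ℂ}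
    {d B η C t₀ T H S x₀ x₁ : ℝ}
    (hκ : ‖κ‖ = 1) (hC : 0 ≤ C)
    (hmain : ∀ t, t₀ ≤ t → ‖Yt t - κ * cexp (((th d B η t : ℝ) : ℂ) * I)‖ ≤ C / t)
    (hT : 2 ≤ T) (hH : 1 ≤ H) (hx : T / 2 ≤ x₀) (hx0 : t₀ ≤ x₀) (h01 : x₀ ≤ x₁)
    (hx1 : x₁ - x₀ ≤ 2 * T) (hS1 : 1 ≤ S)
    (hS2 : ∑ k ∈ Finset.Icc 1 N, ‖a k‖ ^ 2 ≤ S)
    (hS4 : ∑ k ∈ Finset.Icc 1 N, (k : ℝ) * ‖a k‖ ^ 4 ≤ S)
    (hlam : ∀ x, x₀ ≤ x → Real.exp (H ^ (-(1 / 2) : ℝ) - th1 d B η x) ≤ H ^ (-(1 / 2) : ℝ)) :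
    ∫ x in x₀..x₁, ‖avg (fun t => (∑ k ∈ Finset.Icc 1 N, a k * nit k t) * Yt t) H x‖ ^ 2 ≤
      2 * ((x₁ - x₀) * (8 * H ^ (-(1 / 4) : ℝ) * S) +
        Cmv * (1 + 4 * (|d| + |η|) * H) * N * Real.log (N + 1) * S) +
      2 * ((x₁ - x₀) * (N * S * ((2 * C + 2 * (|d| + |η|) * H ^ 2) / T) ^ 2)) := by
  have hH0 : 0 < H := by linarith
  have hu : uIcc x₀ x₁ = Icc x₀ x₁ := uIcc_of_le h01
  have hpos : ∀ x ∈ Icc x₀ x₁, 0 < x := fun x hx' => by linarith [hx'.1]
  set g : ℕ → ℝ → ℂ := fun k x => psi H (th1 d B η x - Real.log k) with hg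
  set g' : ℕ → ℝ → ℂ := fun k x => ((d / x - η / x ^ 2 : ℝ) : ℂ) *
    psi1 H (th1 d B η x - Real.log k) with hg'
  have hgd : ∀ k, ∀ x ∈ Icc x₀ x₁, HasDerivAt (g k) (g' k x) x := by
    intro k x hx'
    have h1 := (hasDerivAt_th1 d B η (hpos x hx')).sub_const (Real.log k)
    have h2 := (hasDerivAt_psi hH0 (th1 d B η x - Real.log k)).scomp x h1
    have e : (d / x - η / x ^ 2) • psi1 H (th1 d B η x - Real.log k) = g' k x := by
      simp only [hg', Complex.real_smul]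
    rw [e] at h2
    exact h2
  have hth1c : ContinuousOn (th1 d B η) (Icc x₀ x₁) := fun x hx' =>
    (hasDerivAt_th1 d B η (hpos x hx')).continuousAt.continuousWithinAt
  have hg'c : ∀ k, ContinuousOn (g' k) (Icc x₀ x₁) := by
    intro k
    simp only [hg']
    apply ContinuousOn.mul
    · apply Complex.continuous_ofReal.comp_continuousOn
      apply ContinuousOn.sub
      · exact continuousOn_const.div continuousOn_id fun x hx' => (hpos x hx').ne'
      · exact continuousOn_const.div (continuousOn_id.pow 2) fun x hx' =>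
          (pow_pos (hpos x hx') 2).ne'
    · exact (continuous_psi1 H).comp_continuousOn (hth1c.sub continuousOn_const)
  have hgc : ∀ k, ContinuousOn (g k) (Icc x₀ x₁) := fun k x hx' =>
    (hgd k x hx').continuousAt.continuousWithinAt
  have hg1 : ∀ k, ∀ x ∈ Icc x₀ x₁, ‖g k x‖ ≤ 1 := fun k x _ => norm_psi_le_one hH0 _
  have hgV : ∀ k, ∀ x ∈ Icc x₀ x₁, ‖g' k x‖ * (x₁ - x₀) ≤ 4 * (|d| + |η|) * H := by
    intro k x hx'
    simp only [hg', norm_mul, Complex.norm_real, Real.norm_eq_abs]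
    have h1 := th2_le (d := d) (η := η) hT (hx.trans hx'.1)
    have h2 := norm_psi1_le hH0 (th1 d B η x - Real.log k)
    calc |d / x - η / x ^ 2| * ‖psi1 H (th1 d B η x - Real.log k)‖ * (x₁ - x₀) ≤
        (2 * (|d| + |η|) / T) * H * (2 * T) := by
          apply mul_le_mul _ hx1 (by linarith) (by positivity)
          exact mul_le_mul h1 h2 (norm_nonneg _) (by positivity)
      _ = 4 * (|d| + |η|) * H := by
          field_simp
          ring
  have hMV := hmv N a g g' x₀ x₁ (4 * (|d| + |η|) * H) hN h01 (by positivity) hgd hg'c hg1 hgV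
  set Mo : ℝ → ℂ := fun x => ∑ k ∈ Finset.Icc 1 N, a k * g k x *
    cexp (((-(x * Real.log k) : ℝ) : ℂ) * I) with hMo
  have hMoc : ContinuousOn Mo (Icc x₀ x₁) := by
    simp only [hMo]
    apply continuousOn_finsetSum
    intro k _
    exact (continuousOn_const.mul (hgc k)).mul
      (by fun_prop : Continuous fun x : ℝ => cexp (((-(x * Real.log k) : ℝ) : ℂ) * I)).continuousOn
  -- the diagonal terms
  have hdiag : ∑ k ∈ Finset.Icc 1 N, ‖a k‖ ^ 2 * ∫ x in x₀..x₁, ‖g k x‖ ^ 2 ≤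
      (x₁ - x₀) * (8 * H ^ (-(1 / 4) : ℝ) * S) := by
    have e1 : ∑ k ∈ Finset.Icc 1 N, ‖a k‖ ^ 2 * ∫ x in x₀..x₁, ‖g k x‖ ^ 2 =
        ∫ x in x₀..x₁, ∑ k ∈ Finset.Icc 1 N, ‖a k‖ ^ 2 * ‖g k x‖ ^ 2 := by
      rw [intervalIntegral.integral_finsetSum]
      · refine Finset.sum_congr rfl fun k _ => ?_
        rw [intervalIntegral.integral_const_mul]
      · intro k _
        apply ContinuousOn.intervalIntegrable
        rw [hu]
        exact continuousOn_const.mul ((hgc k).norm.pow 2)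
    rw [e1]
    have h2 : ∫ x in x₀..x₁, ∑ k ∈ Finset.Icc 1 N, ‖a k‖ ^ 2 * ‖g k x‖ ^ 2 ≤
        ∫ x in x₀..x₁, 8 * H ^ (-(1 / 4) : ℝ) * S := by
      apply intervalIntegral.integral_mono_on h01
      · apply ContinuousOn.intervalIntegrable
        rw [hu]
        apply continuousOn_finsetSum
        intro k _
        exact continuousOn_const.mul ((hgc k).norm.pow 2)
      · exact continuous_const.intervalIntegrable _ _
      · intro x hx'
        exact pointwise hS1 hS2 hS4 hH (hlam x hx'.1)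
    rw [intervalIntegral.integral_const, smul_eq_mul] at h2
    exact h2
  have hN1 : (1 : ℝ) ≤ N := by exact_mod_cast hN
  have hlogN : 0 ≤ Real.log ((N : ℝ) + 1) := Real.log_nonneg (by linarith)
  have hMoint : ∫ x in x₀..x₁, ‖Mo x‖ ^ 2 ≤ (x₁ - x₀) * (8 * H ^ (-(1 / 4) : ℝ) * S) +
      Cmv * (1 + 4 * (|d| + |η|) * H) * N * Real.log (N + 1) * S := by
    refine hMV.trans (add_le_add hdiag ?_)
    exact mul_le_mul_of_nonneg_left hS2 (by positivity)
  -- comparison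
  set ε : ℝ := (∑ k ∈ Finset.Icc 1 N, ‖a k‖) * ((2 * C + 2 * (|d| + |η|) * H ^ 2) / T) with hε
  have hGc : Continuous fun t => (∑ k ∈ Finset.Icc 1 N, a k * nit k t) * Yt t :=
    (continuous_finsetSum _ fun k _ => continuous_const.mul (continuous_nit k)).mul hY
  have hε2 : ε ^ 2 ≤ N * S * ((2 * C + 2 * (|d| + |η|) * H ^ 2) / T) ^ 2 := by
    rw [hε, mul_pow]
    exact mul_le_mul_of_nonneg_right (sum_coef_sq hS2) (by positivity)
  have hpt : ∀ x ∈ Icc x₀ x₁,
      ‖avg (fun t => (∑ k ∈ Finset.Icc 1 N, a k * nit k t) * Yt t) H x‖ ^ 2 ≤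
        2 * ‖Mo x‖ ^ 2 + 2 * ε ^ 2 := by
    intro x hx'
    have h1 := approx (N := N) (a := a) hY hκ hC hmain hT hH0 (hx.trans hx'.1) (hx0.trans hx'.1)
    have h2 : ‖κ * cexp (((th d B η x : ℝ) : ℂ) * I) * ∑ k ∈ Finset.Icc 1 N,
        a k * psi H (th1 d B η x - Real.log k) *
          cexp (((-(x * Real.log k) : ℝ) : ℂ) * I)‖ = ‖Mo x‖ := by
      rw [norm_mul, norm_mul, hκ, Complex.norm_exp_ofReal_mul_I, one_mul, one_mul]
    set U := avg (fun t => (∑ k ∈ Finset.Icc 1 N, a k * nit k t) * Yt t) H x with hU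
    have h3 : ‖U‖ ≤ ‖Mo x‖ + ε := by
      rw [← h2]
      have h4 := norm_sub_norm_le U (κ * cexp (((th d B η x : ℝ) : ℂ) * I) *
        ∑ k ∈ Finset.Icc 1 N, a k * psi H (th1 d B η x - Real.log k) *
          cexp (((-(x * Real.log k) : ℝ) : ℂ) * I))
      linarith
    have h5 : ‖U‖ ^ 2 ≤ (‖Mo x‖ + ε) ^ 2 := pow_le_pow_left₀ (norm_nonneg _) h3 2
    nlinarith [sq_nonneg (‖Mo x‖ - ε)]
  have h6 : ∫ x in x₀..x₁, ‖avg (fun t => (∑ k ∈ Finset.Icc 1 N, a k * nit k t) * Yt t) H x‖ ^ 2 ≤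
      ∫ x in x₀..x₁, (2 * ‖Mo x‖ ^ 2 + 2 * ε ^ 2) := by
    apply intervalIntegral.integral_mono_on h01
    · exact ((continuous_avg hGc H).norm.pow 2).intervalIntegrable _ _
    · apply ContinuousOn.intervalIntegrable
      rw [hu]
      exact (continuousOn_const.mul (hMoc.norm.pow 2)).add continuousOn_const
    · exact hpt
  rw [intervalIntegral.integral_add, intervalIntegral.integral_const_mul,
    intervalIntegral.integral_const, smul_eq_mul] at h6
  · have h7 : (x₁ - x₀) * (2 * ε ^ 2) ≤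
        (x₁ - x₀) * (2 * (N * S * ((2 * C + 2 * (|d| + |η|) * H ^ 2) / T) ^ 2)) :=
      mul_le_mul_of_nonneg_left (by linarith) (by linarith)
    linarith
  · apply ContinuousOn.intervalIntegrable
    rw [hu]
    exact continuousOn_const.mul (hMoc.norm.pow 2)
  · exact continuous_const.intervalIntegrable _ _

/-- Module MS. The (correctly parenthesised) mean value theorem is `mv`. -/
theorem ms : T_MS := by
  classical
  intro ι _ f Y d t₀ β D κ hβ hd hPh hdD hDκ hκ hr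
  obtain ⟨κ₀, B, η, CY0, hκ₀, hmain0⟩ := hPh.main
  obtain ⟨Cmv, hCmv, hmv⟩ := mv
  set q := Fintype.card ι with hq
  set E : ℕ := 2 ^ (4 * q) with hE
  set c : ℝ := q + 2 with hc
  have hc1 : 1 ≤ c := by
    rw [hc]
    have : (0 : ℝ) ≤ q := Nat.cast_nonneg q
    linarith
  set K0 : ℝ := |d| + |η| with hK0
  have hK00 : 0 ≤ K0 := by positivity
  set CY : ℝ := |CY0| with hCY
  have hCY0 : 0 ≤ CY := abs_nonneg _
  have hκ0 : 0 < κ := by linarith
  have hD0 : 0 < D := by linarith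
  refine ⟨max (36 * c ^ E) E, lt_max_of_lt_left (by positivity), ?_⟩
  intro A hA
  have ev : ∀ᶠ T : ℝ in atTop, Real.exp 1 ≤ T ∧ 4 ≤ T ∧ 2 * t₀ ≤ T ∧
      4 * Real.log T ^ (1 : ℝ) ≤ T ^ (1 : ℝ) ∧ 2 * Real.log T ^ (1 : ℝ) ≤ T ^ κ ∧
      (Cmv * (1 + 4 * K0) * 2 ^ q * c) * Real.log T ^ (A + 1 + A / 4) ≤ T ^ (κ - D) ∧
      (2 ^ (q + 1) * (2 * CY + 2 * K0) ^ 2) * Real.log T ^ (4 * A + A / 4) ≤ T ^ (1 : ℝ) ∧
      (Real.exp (1 + |B| + |η|) * 2 ^ d) * Real.log T ^ (A / 2) ≤ T ^ d := by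
    filter_upwards [eventually_ge_atTop (Real.exp 1), eventually_ge_atTop 4,
      eventually_ge_atTop (2 * t₀), log_small 4 1 one_pos, log_small 2 1 hκ0,
      log_small (Cmv * (1 + 4 * K0) * 2 ^ q * c) (A + 1 + A / 4) (sub_pos.2 hDκ),
      log_small (2 ^ (q + 1) * (2 * CY + 2 * K0) ^ 2) (4 * A + A / 4) one_pos,
      log_small (Real.exp (1 + |B| + |η|) * 2 ^ d) (A / 2) hd] with T h1 h2 h3 h4 h5 h6 h7 h8
    exact ⟨h1, h2, h3, h4, h5, h6, h7, h8⟩
  obtain ⟨T₀, hT₀⟩ := eventually_atTop.1 ev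
  refine ⟨T₀, ?_⟩
  intro T hT j hj a W haT haW hW
  obtain ⟨e1, e2, e3, e4, e5, e6, e7, e8⟩ := hT₀ T hT
  set L : ℝ := Real.log T with hL
  have hT0 : 0 < T := by linarith
  have hL1 : 1 ≤ L := (Real.le_log_iff_exp_le hT0).2 e1
  have hL0 : 0 < L := by linarith
  rw [Real.rpow_one, Real.rpow_one] at e4
  rw [Real.rpow_one] at e5
  rw [Real.rpow_one] at e7
  set H : ℝ := L ^ A with hH
  have hH1 : 1 ≤ H := Real.one_le_rpow hL1 (by linarith)
  have hH0 : 0 < H := by linarith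
  have hHL : L ≤ H := by
    calc L = L ^ (1 : ℝ) := (Real.rpow_one L).symm
      _ ≤ L ^ A := Real.rpow_le_rpow_of_exponent_le hL1 hA
  have hW2 : 2 * L ≤ W := e5.trans hW
  have hW0 : 0 < W := by linarith
  have ht₀ := hPh.one_le
  -- the expansion
  obtain ⟨b, hb, hbP⟩ := prod_expand f hr j Finset.univ
  set N : ℕ := ∏ l, 2 * 2 ^ j l with hN
  have hN1 : 1 ≤ N := by
    rw [hN]
    exact Nat.one_le_iff_ne_zero.2 (Finset.prod_ne_zero_iff.2 fun l _ => by positivity)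
  have hNle : (N : ℝ) ≤ 2 ^ q * T ^ D := prod_le f hr hT0 hj
  have hN0 : (0 : ℝ) < N := by exact_mod_cast hN1
  rw [Finset.card_univ] at hb
  have hD1 : D ≤ 1 := by linarith
  have hlogN : Real.log N ≤ q + L := by
    have h1 : Real.log N ≤ Real.log (2 ^ q * T ^ D) := Real.log_le_log hN0 hNle
    rw [Real.log_mul (by positivity) (by positivity), Real.log_pow, Real.log_rpow hT0] at h1
    have h2 : (q : ℝ) * Real.log 2 ≤ q := by
      have := Real.log_two_lt_d9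
      exact mul_le_of_le_one_right (Nat.cast_nonneg q) (by linarith)
    have h3 : D * L ≤ L := mul_le_of_le_one_left hL0.le hD1
    linarith
  have hΛ : 1 + Real.log N ≤ c * L := by
    have h1 : (q : ℝ) ≤ q * L := le_mul_of_one_le_right (Nat.cast_nonneg q) hL1
    rw [hc]
    nlinarith
  have hΛ1 : 1 ≤ c * L := by nlinarith
  obtain ⟨hS2, hS4⟩ := coef_sums hb hΛ hΛ1
  set S : ℝ := (c * L) ^ E with hS
  have hS1 : 1 ≤ S := one_le_pow₀ hΛ1
  have hlogN1 : Real.log ((N : ℝ) + 1) ≤ c * L := by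
    have h1 : Real.log ((N : ℝ) + 1) ≤ Real.log (2 * N) := by
      apply Real.log_le_log (by positivity)
      have : (1 : ℝ) ≤ N := by exact_mod_cast hN1
      linarith
    rw [Real.log_mul (by norm_num) hN0.ne'] at h1
    have := Real.log_two_lt_d9
    linarith
  -- the continuous extension of the phase
  set Yt : ℝ → ℂ := fun t => Y (1 / 2 + ((max t t₀ : ℝ) : ℂ) * I) with hYt
  have hYtc : Continuous Yt := by
    rw [continuous_iff_continuousAt]
    intro t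
    have h1 : ContinuousAt Y (1 / 2 + ((max t t₀ : ℝ) : ℂ) * I) := by
      apply (hPh.diff _ _).continuousAt
      simp
    have h2 : ContinuousAt (fun t : ℝ => (1 / 2 + ((max t t₀ : ℝ) : ℂ) * I)) t := by
      apply Continuous.continuousAt
      fun_prop
    exact ContinuousAt.comp (f := fun t : ℝ => (1 / 2 + ((max t t₀ : ℝ) : ℂ) * I)) (g := Y) h1 h2
  have hYteq : ∀ t, t₀ ≤ t → Yt t = Y (1 / 2 + t * I) := fun t ht => by
    simp only [hYt, max_eq_left ht]
  have hmain : ∀ t, t₀ ≤ t → ‖Yt t - κ₀ * cexp (((th d B η t : ℝ) : ℂ) * I)‖ ≤ CY / t := by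
    intro t ht
    rw [hYteq t ht]
    refine (hmain0 t ht).trans ?_
    have : 0 < t := by linarith
    gcongr
    exact le_abs_self _
  set G : ℝ → ℂ := fun t => (∑ k ∈ Finset.Icc 1 N, b k * nit k t) * Yt t with hG
  have hGc : Continuous G :=
    (continuous_finsetSum _ fun k _ => continuous_const.mul (continuous_nit k)).mul hYtc
  set φ : ℝ → ℂ := fun y => gs β (y * I) with hφ
  have hφc : Continuous φ := (Pool.Agent.H11.DL.differentiable_gs β).continuous.comp (by fun_prop)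
  have hφ1 : ∫ y in (-L)..L, ‖φ y‖ ≤ 1 := by
    have h1 := Pool.Agent.H11.DL.intervalIntegral_norm_gs_le hβ 0 L hL0.le
    simpa [hφ] using h1
  have hsm := smooth hGc hφc (R := L) (H := H) (a := a) (W := W) hL0.le hH0.le hW0.le hφ1
  -- identification of the integrand
  have hid : ∫ u in Icc a (a + W), ‖((L ^ A)⁻¹ : ℝ) • ∫ v in (0 : ℝ)..(L ^ A),
      KJ f Y β L j (u + v)‖ ^ 2 =
      ∫ u in a..(a + W), ‖((H⁻¹ : ℝ) : ℂ) * ∫ v in (0 : ℝ)..H, ∫ y in (-L)..L,
        G (u + v + y) * φ y‖ ^ 2 := by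
    rw [integral_Icc_eq_integral_Ioc, ← intervalIntegral.integral_of_le (by linarith)]
    refine intervalIntegral.integral_congr fun u hu => ?_
    rw [uIcc_of_le (by linarith)] at hu
    simp only [Complex.real_smul]
    congr 3
    refine intervalIntegral.integral_congr fun v hv => ?_
    rw [uIcc_of_le hH0.le] at hv
    simp only [KJ]
    refine intervalIntegral.integral_congr fun y hy => ?_
    rw [uIcc_of_le (by linarith)] at hy
    simp only [hG, hφ]
    have h1 : t₀ ≤ u + v + y := by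
      have := hu.1
      have := hv.1
      have := hy.1
      linarith
    rw [hYteq _ h1]
    congr 2
    exact hbP _
  rw [hid]
  refine hsm.trans ?_
  -- the main estimate
  have hlam : ∀ x, a - L ≤ x → Real.exp (H ^ (-(1 / 2) : ℝ) - th1 d B η x) ≤
      H ^ (-(1 / 2) : ℝ) := by
    intro x hx
    have hxT : T / 2 ≤ x := by linarith
    have hx1 : 1 ≤ x := by linarith
    have h1 : H ^ (-(1 / 2) : ℝ) ≤ 1 := Real.rpow_le_one_of_one_le_of_nonpos hH1 (by norm_num)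
    have h2 : d * Real.log (T / 2) - |B| - |η| ≤ th1 d B η x := by
      unfold th1
      have h3 : Real.log (T / 2) ≤ Real.log x := Real.log_le_log (by linarith) hxT
      have h4 : -|η| ≤ η / x := by
        have h5 : |η / x| ≤ |η| := by
          rw [abs_div, abs_of_pos (by linarith : 0 < x)]
          exact div_le_self (abs_nonneg _) hx1
        linarith [neg_abs_le (η / x)]
      have h6 := neg_abs_le B
      nlinarith
    have h3 : Real.exp (H ^ (-(1 / 2) : ℝ) - th1 d B η x) ≤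
        Real.exp (1 + |B| + |η|) * 2 ^ d / T ^ d := by
      have h4 : (T / 2) ^ d = T ^ d / 2 ^ d := Real.div_rpow hT0.le (by norm_num) d
      have h5 : Real.exp (d * Real.log (T / 2)) = (T / 2) ^ d := by
        rw [Real.rpow_def_of_pos (by linarith), mul_comm]
      calc Real.exp (H ^ (-(1 / 2) : ℝ) - th1 d B η x) ≤
          Real.exp ((1 + |B| + |η|) - d * Real.log (T / 2)) := Real.exp_le_exp.2 (by linarith)
        _ = Real.exp (1 + |B| + |η|) / (T / 2) ^ d := by rw [Real.exp_sub, h5]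
        _ = Real.exp (1 + |B| + |η|) * 2 ^ d / T ^ d := by
            rw [h4]
            field_simp
    refine h3.trans ?_
    have h6 : H ^ (-(1 / 2) : ℝ) = (L ^ (A / 2))⁻¹ := by
      rw [hH, ← Real.rpow_mul hL0.le, ← Real.rpow_neg hL0.le]
      congr 1
      ring
    rw [h6, div_le_iff₀ (by positivity), ← div_eq_inv_mul, le_div_iff₀ (by positivity)]
    exact e8
  have hcore := core hCmv hmv hN1 (a := b) hYtc (κ := κ₀) (d := d) (B := B) (η := η) (C := CY)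
    (t₀ := t₀) (T := T) (H := H) (S := S) (x₀ := a - L) (x₁ := a + W + L) hκ₀ hCY0 hmain
    (by linarith) hH1 (by linarith) (by linarith) (by linarith) (by linarith) hS1 hS2 hS4 hlam
  refine hcore.trans ?_
  -- collection of the terms
  set g : ℝ := H ^ (-(1 / 4) : ℝ) with hg
  have hg0 : 0 < g := Real.rpow_pos_of_pos hH0 _
  have hS0 : 0 < S := by linarith
  have hx : a + W + L - (a - L) ≤ 2 * W := by linarith
  have hgL : g * L ^ (A / 4) = 1 := by
    rw [hg, hH, ← Real.rpow_mul hL0.le, ← Real.rpow_add hL0]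
    have : A * -(1 / 4) + A / 4 = 0 := by ring
    rw [this, Real.rpow_zero]
  have t1 : (a + W + L - (a - L)) * (8 * g * S) ≤ 16 * (W * g * S) := by
    calc _ ≤ 2 * W * (8 * g * S) := by gcongr
      _ = _ := by ring
  have t2 : Cmv * (1 + 4 * (|d| + |η|) * H) * N * Real.log (N + 1) * S ≤ W * g * S := by
    apply mul_le_mul_of_nonneg_right _ hS0.le
    have h1 : 1 + 4 * K0 * H ≤ (1 + 4 * K0) * H := by nlinarith
    have h2 : Cmv * (1 + 4 * K0 * H) * N * Real.log (N + 1) ≤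
        Cmv * ((1 + 4 * K0) * H) * (2 ^ q * T ^ D) * (c * L) := by
      have h3 : 0 ≤ Real.log ((N : ℝ) + 1) := Real.log_nonneg (by linarith)
      gcongr
    have h3 : Cmv * ((1 + 4 * K0) * H) * (2 ^ q * T ^ D) * (c * L) =
        ((Cmv * (1 + 4 * K0) * 2 ^ q * c) * L ^ (A + 1 + A / 4)) * T ^ D * g := by
      have h4 : L ^ (A + 1 + A / 4) = H * L * L ^ (A / 4) := by
        rw [Real.rpow_add hL0, Real.rpow_add hL0, Real.rpow_one]
      rw [h4]
      linear_combination (-(Cmv * (1 + 4 * K0) * 2 ^ q * c * H * L * T ^ D)) * hgL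
    have h5 : ((Cmv * (1 + 4 * K0) * 2 ^ q * c) * L ^ (A + 1 + A / 4)) * T ^ D * g ≤
        T ^ (κ - D) * T ^ D * g := by gcongr
    have h6 : T ^ (κ - D) * T ^ D = T ^ κ := by
      rw [← Real.rpow_add hT0]
      congr 1
      ring
    rw [h6] at h5
    calc _ ≤ _ := h2
      _ = _ := h3
      _ ≤ _ := h5
      _ ≤ W * g := by gcongr
  have t3 : (a + W + L - (a - L)) * (N * S * ((2 * CY + 2 * (|d| + |η|) * H ^ 2) / T) ^ 2) ≤
      W * g * S := by
    have h1 : 2 * CY + 2 * K0 * H ^ 2 ≤ (2 * CY + 2 * K0) * H ^ 2 := by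
      have : 1 ≤ H ^ 2 := one_le_pow₀ hH1
      nlinarith
    have hNT : (N : ℝ) ≤ 2 ^ q * T := by
      refine hNle.trans ?_
      apply mul_le_mul_of_nonneg_left _ (by positivity)
      calc T ^ D ≤ T ^ (1 : ℝ) := Real.rpow_le_rpow_of_exponent_le (by linarith) hD1
        _ = T := Real.rpow_one T
    have h2 : (a + W + L - (a - L)) * (N * S * ((2 * CY + 2 * K0 * H ^ 2) / T) ^ 2) ≤
        (2 * W) * ((2 ^ q * T) * S * (((2 * CY + 2 * K0) * H ^ 2) / T) ^ 2) := by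
      gcongr
    have h3 : (2 * W) * ((2 ^ q * T) * S * (((2 * CY + 2 * K0) * H ^ 2) / T) ^ 2) =
        W * S * (((2 ^ (q + 1) * (2 * CY + 2 * K0) ^ 2) * L ^ (4 * A + A / 4)) / T) * g := by
      have h4 : L ^ (4 * A + A / 4) = H ^ 4 * L ^ (A / 4) := by
        rw [Real.rpow_add hL0, hH, ← Real.rpow_natCast (L ^ A) 4, ← Real.rpow_mul hL0.le]
        congr 2
        push_cast
        ring
      rw [h4]
      have h5 : L ^ (A / 4) * g = 1 := by rw [mul_comm]; exact hgL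
      rw [pow_succ (2 : ℝ) q]
      have h6 : T * T⁻¹ = 1 := mul_inv_cancel₀ hT0.ne'
      rw [div_eq_mul_inv, div_eq_mul_inv]
      have e1 : (2 * W) * ((2 ^ q * T) * S * (((2 * CY + 2 * K0) * H ^ 2) * T⁻¹) ^ 2) =
          (T * T⁻¹) * (2 * W * 2 ^ q * S * ((2 * CY + 2 * K0) * H ^ 2) ^ 2 * T⁻¹) := by ring
      have e2 : W * S * (((2 ^ q * 2 * (2 * CY + 2 * K0) ^ 2) * (H ^ 4 * L ^ (A / 4))) * T⁻¹) * g =
          (L ^ (A / 4) * g) * (2 * W * 2 ^ q * S * ((2 * CY + 2 * K0) * H ^ 2) ^ 2 * T⁻¹) := by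
        ring
      rw [e1, e2, h5, h6]
    have h6 : ((2 ^ (q + 1) * (2 * CY + 2 * K0) ^ 2) * L ^ (4 * A + A / 4)) / T ≤ 1 := by
      rw [div_le_one hT0]
      exact e7
    calc _ ≤ _ := h2
      _ = _ := h3
      _ ≤ W * S * 1 * g := by gcongr
      _ = W * g * S := by ring
  have hfin : 36 * (W * g * S) ≤ max (36 * c ^ E) E * L ^ (max (36 * c ^ E) (E : ℝ)) * g * W := by
    have h1 : S = c ^ E * L ^ (E : ℝ) := by
      rw [hS, mul_pow, Real.rpow_natCast]
    have h2 : L ^ (E : ℝ) ≤ L ^ (max (36 * c ^ E) (E : ℝ)) :=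
      Real.rpow_le_rpow_of_exponent_le hL1 (le_max_right _ _)
    rw [h1]
    calc 36 * (W * g * (c ^ E * L ^ (E : ℝ))) = (36 * c ^ E) * L ^ (E : ℝ) * g * W := by ring
      _ ≤ max (36 * c ^ E) E * L ^ (max (36 * c ^ E) (E : ℝ)) * g * W := by
        gcongr
        exact le_max_left _ _
  calc _ ≤ 2 * (16 * (W * g * S) + W * g * S) + 2 * (W * g * S) := by
        have := add_le_add t1 t2
        linarith
    _ = 36 * (W * g * S) := by ring
    _ ≤ _ := hfin

end Pool.Agent.H39.MZ
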