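import Pool.Agent.H25.MZ.Targets
import Pool.Agent.H19.DL.MO

/-!
Module MS, part 2: the product of the blocks as a Dirichlet polynomial.
-/

set_option autoImplicit false

open Complex MeasureTheory Set Filter

namespace Pool.Agent.H39.MZ

open Pool.Agent.H24.MR (nit)
open Pool.Agent.H25.DL Pool.Agent.H25.HK Pool.Agent.H25.MZ
open Pool.Agent.H19.DL

/-- the product of two Dirichlet polynomials -/
lemma mul_expand (N M : ℕ) (hN : 1 ≤ N) (c a : ℕ → ℂ)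
    (hc : ∀ n, 1 ≤ n → ‖c n‖ ≤ (n : ℝ) ^ (-(1 / 2) : ℝ)) (k : ℕ)
    (ha : ∀ m, 1 ≤ m → ‖a m‖ ≤ (dv m : ℝ) ^ k * (m : ℝ) ^ (-(1 / 2) : ℝ)) :
    ∃ b : ℕ → ℂ, (∀ m, 1 ≤ m → ‖b m‖ ≤ (dv m : ℝ) ^ (k + 1) * (m : ℝ) ^ (-(1 / 2) : ℝ)) ∧
      ∀ u : ℝ, (∑ n ∈ Finset.Ico N (2 * N), c n * nit n u) * ∑ m ∈ Finset.Icc 1 M, a m * nit m u =
        ∑ m ∈ Finset.Icc 1 (2 * N * M), b m * nit m u := by
  set S := Finset.Ico N (2 * N) with hS
  refine ⟨fun l => ∑ p ∈ (S ×ˢ Finset.Icc 1 M) with p.1 * p.2 = l, c p.1 * a p.2, ?_, ?_⟩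
  · intro l hl
    refine (norm_sum_le _ _).trans ?_
    have hcard : ((S ×ˢ Finset.Icc 1 M).filter (fun p => p.1 * p.2 = l)).card ≤ dv l := by
      have h1 : (S ×ˢ Finset.Icc 1 M).filter (fun p => p.1 * p.2 = l) ⊆
          l.divisorsAntidiagonal := by
        intro p hp
        rw [Finset.mem_filter] at hp
        rw [Nat.mem_divisorsAntidiagonal]
        exact ⟨hp.2, by omega⟩
      refine (Finset.card_le_card h1).trans (le_of_eq ?_)
      unfold dv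
      rw [← Nat.map_div_right_divisors, Finset.card_map]
    have hterm : ∀ p ∈ (S ×ˢ Finset.Icc 1 M).filter (fun p => p.1 * p.2 = l),
        ‖c p.1 * a p.2‖ ≤ (dv l : ℝ) ^ k * (l : ℝ) ^ (-(1 / 2) : ℝ) := by
      intro p hp
      rw [Finset.mem_filter, Finset.mem_product, hS, Finset.mem_Ico, Finset.mem_Icc] at hp
      obtain ⟨⟨⟨h1, -⟩, h2, -⟩, h3⟩ := hp
      have h4 : 1 ≤ p.1 := by omega
      rw [norm_mul]
      have h5 : (dv p.2 : ℝ) ≤ dv l := by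
        exact_mod_cast dv_mono (Dvd.intro_left _ h3) (by omega)
      calc ‖c p.1‖ * ‖a p.2‖ ≤ (p.1 : ℝ) ^ (-(1 / 2) : ℝ) *
            ((dv p.2 : ℝ) ^ k * (p.2 : ℝ) ^ (-(1 / 2) : ℝ)) :=
            mul_le_mul (hc _ h4) (ha _ h2) (norm_nonneg _) (by positivity)
        _ = (dv p.2 : ℝ) ^ k * (l : ℝ) ^ (-(1 / 2) : ℝ) := by
            rw [← h3, Nat.cast_mul, Real.mul_rpow (by positivity) (by positivity)]
            ring
        _ ≤ (dv l : ℝ) ^ k * (l : ℝ) ^ (-(1 / 2) : ℝ) :=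
            mul_le_mul_of_nonneg_right (pow_le_pow_left₀ (by positivity) h5 k) (by positivity)
    refine (Finset.sum_le_sum hterm).trans ?_
    rw [Finset.sum_const, nsmul_eq_mul, pow_succ]
    have h6 : ((((S ×ˢ Finset.Icc 1 M).filter (fun p => p.1 * p.2 = l)).card : ℕ) : ℝ) ≤ dv l := by
      exact_mod_cast hcard
    have h7 : (0 : ℝ) ≤ (dv l : ℝ) ^ k * (l : ℝ) ^ (-(1 / 2) : ℝ) := by positivity
    calc _ ≤ (dv l : ℝ) * ((dv l : ℝ) ^ k * (l : ℝ) ^ (-(1 / 2) : ℝ)) :=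
          mul_le_mul_of_nonneg_right h6 h7
      _ = _ := by ring
  · intro u
    have hmaps : ∀ p ∈ S ×ˢ Finset.Icc 1 M, p.1 * p.2 ∈ Finset.Icc 1 (2 * N * M) := by
      intro p hp
      rw [Finset.mem_product, hS, Finset.mem_Ico, Finset.mem_Icc] at hp
      rw [Finset.mem_Icc]
      exact ⟨Nat.mul_pos (by omega) (by omega), Nat.mul_le_mul (by omega) hp.2.2⟩
    rw [Finset.sum_mul_sum, ← Finset.sum_product', ← Finset.sum_fiberwise_of_maps_to hmaps]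
    refine Finset.sum_congr rfl fun l _ => ?_
    rw [Finset.sum_mul]
    refine Finset.sum_congr rfl fun p hp => ?_
    rw [Finset.mem_filter, Finset.mem_product, hS, Finset.mem_Ico, Finset.mem_Icc] at hp
    rw [← hp.2, nit_mul (by omega) (by omega)]
    ring

variable {ι : Type} [Fintype ι]

omit [Fintype ι] in
/-- the product of the blocks -/
lemma prod_expand (f : ι → Fac) (hr : ∀ l, (f l).r = 1) (j : ι → ℕ) (s : Finset ι) :
    ∃ b : ℕ → ℂ, (∀ m, 1 ≤ m → ‖b m‖ ≤ (dv m : ℝ) ^ s.card * (m : ℝ) ^ (-(1 / 2) : ℝ)) ∧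
      ∀ t : ℝ, ∏ l ∈ s, (f l).B (j l) (1 / 2 + t * I) =
        ∑ m ∈ Finset.Icc 1 (∏ l ∈ s, 2 * 2 ^ j l), b m * nit m t := by
  classical
  induction s using Finset.induction_on with
  | empty =>
    refine ⟨fun m => if m = 1 then 1 else 0, fun m hm => ?_, fun u => ?_⟩
    · by_cases h : m = 1
      · simp [h]
      · simp only [h, if_false, norm_zero]
        positivity
    · simp [nit]
  | insert l s hl ih =>
    obtain ⟨a, ha, hsum⟩ := ih
    obtain ⟨b, hb, hb2⟩ := mul_expand (2 ^ j l) (∏ l ∈ s, 2 * 2 ^ j l) Nat.one_le_two_pow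
      (fun n => (f l).c n * (n : ℂ) ^ (-(1 / 2 + (f l).τ * I))) a (by
        intro n hn
        rw [norm_mul]
        have hn0 : 0 < n := hn
        rw [Complex.norm_natCast_cpow_of_pos hn0]
        have : (-(1 / 2 + ((f l).τ : ℂ) * I)).re = -(1 / 2) := by simp
        rw [this]
        exact mul_le_of_le_one_left (by positivity) ((f l).c_le n)) s.card ha
    refine ⟨b, fun m hm => ?_, fun t => ?_⟩
    · rw [Finset.card_insert_of_notMem hl]
      exact hb m hm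
    · rw [Finset.prod_insert hl, Finset.prod_insert hl, hsum t, ← hb2 t, block_eq]
      simp only [hr l, one_mul]

/-- the size of the product of the blocks -/
lemma prod_le (f : ι → Fac) (hr : ∀ l, (f l).r = 1) {D T : ℝ} (hT : 0 < T) {j : ι → ℕ}
    (hj : j ∈ mains f 1 D T) :
    ((∏ l, 2 * 2 ^ j l : ℕ) : ℝ) ≤ 2 ^ Fintype.card ι * T ^ D := by
  classical
  unfold mains at hj
  have h1 := (Finset.mem_filter.1 hj).2
  simp only [hr, mul_one] at h1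
  push_cast
  rw [Finset.prod_mul_distrib, Finset.prod_const, Finset.card_univ]
  apply mul_le_mul_of_nonneg_left _ (by positivity)
  have h2 : (∏ l, (2 : ℝ) ^ j l) = Real.exp (∑ l, (j l : ℝ) * Real.log 2) := by
    rw [Real.exp_sum]
    refine Finset.prod_congr rfl fun l _ => ?_
    rw [Real.exp_nat_mul, Real.exp_log (by norm_num)]
  rw [h2, Real.rpow_def_of_pos hT, mul_comm (Real.log T)]
  exact Real.exp_le_exp.2 h1

/-- sums over the coefficients -/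
lemma coef_sums {N q : ℕ} {b : ℕ → ℂ}
    (hb : ∀ m, 1 ≤ m → ‖b m‖ ≤ (dv m : ℝ) ^ q * (m : ℝ) ^ (-(1 / 2) : ℝ)) {Λ : ℝ}
    (hΛ : 1 + Real.log N ≤ Λ) (hΛ1 : 1 ≤ Λ) :
    ∑ k ∈ Finset.Icc 1 N, ‖b k‖ ^ 2 ≤ Λ ^ (2 ^ (4 * q)) ∧
      ∑ k ∈ Finset.Icc 1 N, (k : ℝ) * ‖b k‖ ^ 4 ≤ Λ ^ (2 ^ (4 * q)) := by
  have hH : ∑ m ∈ Finset.Icc 1 N, (1 : ℝ) / m ≤ Λ := by
    have h6 : ∑ m ∈ Finset.Icc 1 N, (1 : ℝ) / ((m : ℕ) : ℝ) = ((harmonic N : ℚ) : ℝ) := by
      rw [harmonic_eq_sum_Icc]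
      push_cast
      simp
    rw [h6]
    exact (harmonic_le_one_add_log _).trans hΛ
  have hH0 : 0 ≤ ∑ m ∈ Finset.Icc 1 N, (1 : ℝ) / m := Finset.sum_nonneg fun m _ => by positivity
  have h4 : ∑ m ∈ Finset.Icc 1 N, (dv m : ℝ) ^ (4 * q) / m ≤ Λ ^ (2 ^ (4 * q)) :=
    (sum_dv N (4 * q)).trans (pow_le_pow_left₀ hH0 hH _)
  have h2 : ∑ m ∈ Finset.Icc 1 N, (dv m : ℝ) ^ (2 * q) / m ≤ Λ ^ (2 ^ (4 * q)) := by
    refine (sum_dv N (2 * q)).trans ((pow_le_pow_left₀ hH0 hH _).trans ?_)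
    exact pow_le_pow_right₀ hΛ1 (Nat.pow_le_pow_right (by norm_num) (by omega))
  constructor
  · refine (Finset.sum_le_sum fun m hm => ?_).trans h2
    rw [Finset.mem_Icc] at hm
    have hm0 : (0 : ℝ) < m := by exact_mod_cast hm.1
    calc ‖b m‖ ^ 2 ≤ ((dv m : ℝ) ^ q * (m : ℝ) ^ (-(1 / 2) : ℝ)) ^ 2 :=
          pow_le_pow_left₀ (norm_nonneg _) (hb m hm.1) 2
      _ = (dv m : ℝ) ^ (2 * q) / m := by
          rw [mul_pow, ← pow_mul, mul_comm q 2, ← Real.rpow_natCast ((m : ℝ) ^ (-(1 / 2) : ℝ)) 2,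
            ← Real.rpow_mul hm0.le]
          norm_num
          rw [Real.rpow_neg_one, div_eq_mul_inv]
  · refine (Finset.sum_le_sum fun m hm => ?_).trans h4
    rw [Finset.mem_Icc] at hm
    have hm0 : (0 : ℝ) < m := by exact_mod_cast hm.1
    calc (m : ℝ) * ‖b m‖ ^ 4 ≤ m * ((dv m : ℝ) ^ q * (m : ℝ) ^ (-(1 / 2) : ℝ)) ^ 4 := by
          gcongr
          exact hb m hm.1
      _ = (dv m : ℝ) ^ (4 * q) / m := by
          rw [mul_pow, ← pow_mul, mul_comm q 4, ← Real.rpow_natCast ((m : ℝ) ^ (-(1 / 2) : ℝ)) 4,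
            ← Real.rpow_mul hm0.le]
          have : (-(1 / 2) * ((4 : ℕ) : ℝ)) = -2 := by norm_num
          rw [this, Real.rpow_neg hm0.le]
          have : (m : ℝ) ^ (2 : ℝ) = (m : ℝ) ^ 2 := by exact_mod_cast Real.rpow_natCast (m : ℝ) 2
          rw [this]
          field_simp

/-- the sum of the coefficients -/
lemma sum_coef_sq {N : ℕ} {b : ℕ → ℂ} {S : ℝ} (h : ∑ k ∈ Finset.Icc 1 N, ‖b k‖ ^ 2 ≤ S) :
    (∑ k ∈ Finset.Icc 1 N, ‖b k‖) ^ 2 ≤ N * S := by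
  have h1 := sq_sum_le_card_mul_sum_sq (s := Finset.Icc 1 N) (f := fun k => ‖b k‖)
  rw [Nat.card_Icc, Nat.add_sub_cancel] at h1
  exact h1.trans (mul_le_mul_of_nonneg_left h (by positivity))

/-- integers in short intervals -/
lemma short_sum (N : ℕ) (lam h : ℝ) (hh : 0 ≤ h) :
    ∑ k ∈ (Finset.Icc 1 N).filter (fun k : ℕ => |Real.log (k : ℝ) - lam| ≤ h), (1 : ℝ) / k ≤
      Real.exp (2 * h) - 1 + Real.exp (h - lam) := by
  classical
  set S := (Finset.Icc 1 N).filter (fun k : ℕ => |Real.log (k : ℝ) - lam| ≤ h) with hS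
  set a : ℝ := Real.exp (lam - h) with ha
  set b : ℝ := Real.exp (lam + h) with hb
  have hab : a ≤ b := Real.exp_le_exp.2 (by linarith)
  have ha0 : 0 < a := Real.exp_pos _
  have hmem : ∀ k ∈ S, a ≤ k ∧ (k : ℝ) ≤ b := by
    intro k hk
    have h1 := Finset.mem_Icc.1 (Finset.mem_filter.1 hk).1
    have h2 := abs_le.1 (Finset.mem_filter.1 hk).2
    have hk0 : (0 : ℝ) < k := by exact_mod_cast h1.1
    rw [ha, hb]
    constructor
    · rw [← Real.le_log_iff_exp_le hk0]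
      linarith
    · rw [← Real.log_le_iff_le_exp hk0]
      linarith
  have hcard : (S.card : ℝ) ≤ b - a + 1 := by
    have h1 : S ⊆ Finset.Icc ⌈a⌉₊ ⌊b⌋₊ := by
      intro k hk
      obtain ⟨h1, h2⟩ := hmem k hk
      rw [Finset.mem_Icc]
      exact ⟨Nat.ceil_le.2 h1, Nat.le_floor h2⟩
    have h2 := Finset.card_le_card h1
    rw [Nat.card_Icc] at h2
    rcases Nat.lt_or_ge (⌊b⌋₊ + 1) ⌈a⌉₊ with h3 | h3
    · have : S.card = 0 := by omega
      rw [this]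
      push_cast
      linarith
    · have h4 : (S.card : ℝ) ≤ (⌊b⌋₊ : ℝ) + 1 - (⌈a⌉₊ : ℝ) := by
        have : ((⌊b⌋₊ + 1 - ⌈a⌉₊ : ℕ) : ℝ) = (⌊b⌋₊ : ℝ) + 1 - (⌈a⌉₊ : ℝ) := by
          rw [Nat.cast_sub h3]
          push_cast
          ring
        rw [← this]
        exact_mod_cast h2
      have h5 : (⌊b⌋₊ : ℝ) ≤ b := Nat.floor_le (ha0.le.trans hab)
      have h6 : a ≤ (⌈a⌉₊ : ℝ) := Nat.le_ceil a
      linarith
  calc ∑ k ∈ S, (1 : ℝ) / k ≤ ∑ k ∈ S, 1 / a := by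
        refine Finset.sum_le_sum fun k hk => ?_
        exact one_div_le_one_div_of_le ha0 (hmem k hk).1
    _ = S.card / a := by
        rw [Finset.sum_const, nsmul_eq_mul]
        ring
    _ ≤ (b - a + 1) / a := by gcongr
    _ = Real.exp (2 * h) - 1 + Real.exp (h - lam) := by
        rw [add_div, sub_div, div_self ha0.ne', ha, hb, ← Real.exp_sub, one_div, ← Real.exp_neg]
        congr 2
        · congr 1
          ring
        · ring

end Pool.Agent.H39.MZ
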