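import Pool.Agent.H25.MZ.Targets

/-!
Module MS, part 3: the phase and the averages of exponentials.
-/

set_option autoImplicit false

open Complex MeasureTheory Set Filter

namespace Pool.Agent.H39.MZ

/-- the model phase -/
noncomputable def th (d B η t : ℝ) : ℝ := d * t * Real.log t + B * t + η * Real.log t

/-- its derivative -/
noncomputable def th1 (d B η t : ℝ) : ℝ := d * Real.log t + d + B + η / t

lemma hasDerivAt_th (d B η : ℝ) {t : ℝ} (ht : 0 < t) :
    HasDerivAt (th d B η) (th1 d B η t) t := by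
  unfold th th1
  have h1 : HasDerivAt (fun t : ℝ => d * t * Real.log t) (d * 1 * Real.log t + d * t * t⁻¹) t :=
    ((hasDerivAt_id t).const_mul d).mul (Real.hasDerivAt_log ht.ne')
  have h2 : HasDerivAt (fun t : ℝ => B * t) (B * 1) t := (hasDerivAt_id t).const_mul B
  have h3 : HasDerivAt (fun t : ℝ => η * Real.log t) (η * t⁻¹) t :=
    (Real.hasDerivAt_log ht.ne').const_mul η
  have h4 := (h1.add h2).add h3
  have e : d * 1 * Real.log t + d * t * t⁻¹ + B * 1 + η * t⁻¹ =
      d * Real.log t + d + B + η / t := by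
    field_simp
  rw [e] at h4
  exact h4

lemma hasDerivAt_th1 (d B η : ℝ) {t : ℝ} (ht : 0 < t) :
    HasDerivAt (th1 d B η) (d / t - η / t ^ 2) t := by
  unfold th1
  have h1 : HasDerivAt (fun t : ℝ => d * Real.log t) (d * t⁻¹) t :=
    (Real.hasDerivAt_log ht.ne').const_mul d
  have h2 : HasDerivAt (fun t : ℝ => η / t) (η * (-(t ^ 2)⁻¹)) t := by
    have := (hasDerivAt_inv ht.ne').const_mul η
    simpa [div_eq_mul_inv] using this
  have h4 := ((h1.add_const d).add_const B).add h2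
  have e : d * t⁻¹ + η * (-(t ^ 2)⁻¹) = d / t - η / t ^ 2 := by
    field_simp
    ring
  rw [e] at h4
  exact h4

/-- the bound for the second derivative -/
lemma th2_le {d η T t : ℝ} (hT : 2 ≤ T) (ht : T / 2 ≤ t) :
    |d / t - η / t ^ 2| ≤ 2 * (|d| + |η|) / T := by
  have ht1 : 1 ≤ t := by linarith
  have ht0 : 0 < t := by linarith
  have h1 : |d / t| ≤ |d| * 2 / T := by
    rw [abs_div, abs_of_pos ht0, div_le_div_iff₀ ht0 (by linarith)]
    nlinarith [abs_nonneg d]
  have h2 : |η / t ^ 2| ≤ |η| * 2 / T := by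
    rw [abs_div, abs_of_pos (by positivity : (0 : ℝ) < t ^ 2), div_le_div_iff₀ (by positivity)
      (by linarith)]
    nlinarith [abs_nonneg η, mul_nonneg (abs_nonneg η) (sub_nonneg.2 ht1),
      mul_nonneg (mul_nonneg (abs_nonneg η) (sub_nonneg.2 ht1)) ht0.le]
  calc |d / t - η / t ^ 2| ≤ |d / t| + |η / t ^ 2| := abs_sub _ _
    _ ≤ |d| * 2 / T + |η| * 2 / T := add_le_add h1 h2
    _ = 2 * (|d| + |η|) / T := by ring

/-- the first order expansion of the phase -/
lemma th_taylor {d B η T x v : ℝ} (hT : 2 ≤ T) (hx : T / 2 ≤ x) (hv : 0 ≤ v) :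
    |th d B η (x + v) - th d B η x - v * th1 d B η x| ≤ 2 * (|d| + |η|) / T * v ^ 2 := by
  set K : ℝ := 2 * (|d| + |η|) / T with hK
  have hK0 : 0 ≤ K := by positivity
  have hpos : ∀ y, x ≤ y → 0 < y := fun y hy => by linarith
  -- the derivative varies slowly
  have h1 : ∀ y ∈ Icc x (x + v), ‖th1 d B η y - th1 d B η x‖ ≤ K * v := by
    intro y hy
    have := Convex.norm_image_sub_le_of_norm_hasDerivWithin_le (f := th1 d B η)
      (f' := fun t => d / t - η / t ^ 2) (s := Icc x (x + v)) (x := x) (y := y) (C := K)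
      (fun t ht => (hasDerivAt_th1 d B η (hpos t ht.1)).hasDerivWithinAt)
      (fun t ht => by
        rw [Real.norm_eq_abs]
        exact th2_le hT (hx.trans ht.1))
      (convex_Icc _ _) (left_mem_Icc.2 (by linarith)) hy
    refine this.trans ?_
    apply mul_le_mul_of_nonneg_left _ hK0
    rw [Real.norm_eq_abs, abs_of_nonneg (by linarith [hy.1])]
    linarith [hy.2]
  have h2 := Convex.norm_image_sub_le_of_norm_hasDerivWithin_le
    (f := fun y => th d B η y - y * th1 d B η x)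
    (f' := fun y => th1 d B η y - th1 d B η x) (s := Icc x (x + v)) (x := x) (y := x + v)
    (C := K * v)
    (fun t ht => by
      have h3 := hasDerivAt_th d B η (hpos t ht.1)
      have h4 : HasDerivAt (fun y : ℝ => y * th1 d B η x) (1 * th1 d B η x) t :=
        (hasDerivAt_id t).mul_const _
      rw [one_mul] at h4
      exact (h3.sub h4).hasDerivWithinAt)
    h1 (convex_Icc _ _) (left_mem_Icc.2 (by linarith)) (right_mem_Icc.2 (by linarith))
  rw [Real.norm_eq_abs, Real.norm_eq_abs] at h2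
  have e1 : th d B η (x + v) - (x + v) * th1 d B η x - (th d B η x - x * th1 d B η x) =
      th d B η (x + v) - th d B η x - v * th1 d B η x := by ring
  rw [e1] at h2
  have e2 : |x + v - x| = v := by
    rw [add_sub_cancel_left, abs_of_nonneg hv]
  rw [e2] at h2
  calc _ ≤ K * v * v := h2
    _ = K * v ^ 2 := by ring

/-- the average of an exponential -/
noncomputable def psi (H w : ℝ) : ℂ :=
  ((H⁻¹ : ℝ) : ℂ) * ∫ v in (0 : ℝ)..H, cexp (((v * w : ℝ) : ℂ) * I)

lemma norm_psi_le_one {H : ℝ} (hH : 0 < H) (w : ℝ) : ‖psi H w‖ ≤ 1 := by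
  unfold psi
  rw [norm_mul, Complex.norm_real, Real.norm_of_nonneg (inv_nonneg.2 hH.le)]
  have h1 : ‖∫ v in (0 : ℝ)..H, cexp (((v * w : ℝ) : ℂ) * I)‖ ≤ 1 * |H - 0| :=
    intervalIntegral.norm_integral_le_of_norm_le_const fun v _ => by
      rw [Complex.norm_exp_ofReal_mul_I]
  rw [sub_zero, abs_of_pos hH, one_mul] at h1
  calc H⁻¹ * ‖∫ v in (0 : ℝ)..H, cexp (((v * w : ℝ) : ℂ) * I)‖ ≤ H⁻¹ * H := by gcongr
    _ = 1 := inv_mul_cancel₀ hH.ne'

lemma norm_psi_le {H : ℝ} (hH : 0 < H) {w : ℝ} (hw : w ≠ 0) : ‖psi H w‖ ≤ 2 / (H * |w|) := by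
  unfold psi
  have hwI : ((w : ℂ) * I) ≠ 0 := mul_ne_zero (by exact_mod_cast hw) I_ne_zero
  have e1 : ∫ v in (0 : ℝ)..H, cexp (((v * w : ℝ) : ℂ) * I) =
      (cexp (((w : ℂ) * I) * H) - cexp (((w : ℂ) * I) * (0 : ℝ))) / ((w : ℂ) * I) := by
    rw [← integral_exp_mul_complex hwI]
    refine intervalIntegral.integral_congr fun v _ => ?_
    have : (((v * w : ℝ) : ℂ) * I) = ((w : ℂ) * I) * v := by
      push_cast
      ring
    simp only [this]
  rw [e1, norm_mul, norm_div, norm_mul, Complex.norm_I, Complex.norm_real, Complex.norm_real,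
    Real.norm_of_nonneg (inv_nonneg.2 hH.le), mul_one, Real.norm_eq_abs]
  have h2 : ‖cexp (((w : ℂ) * I) * H) - cexp (((w : ℂ) * I) * (0 : ℝ))‖ ≤ 2 := by
    have h3 : ∀ y : ℝ, ‖cexp (((w : ℂ) * I) * y)‖ = 1 := by
      intro y
      have : ((w : ℂ) * I) * y = ((w * y : ℝ) : ℂ) * I := by
        push_cast
        ring
      rw [this, Complex.norm_exp_ofReal_mul_I]
    refine (norm_sub_le _ _).trans ?_
    rw [h3, h3]
    norm_num
  have hwp : 0 < |w| := abs_pos.2 hw
  calc H⁻¹ * (‖cexp (((w : ℂ) * I) * H) - cexp (((w : ℂ) * I) * (0 : ℝ))‖ / |w|) ≤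
      H⁻¹ * (2 / |w|) := by gcongr
    _ = 2 / (H * |w|) := by
      field_simp

/-- the derivative of the average -/
noncomputable def psi1 (H w : ℝ) : ℂ :=
  ((H⁻¹ : ℝ) : ℂ) * ∫ v in (0 : ℝ)..H, ((v : ℂ) * I) * cexp (((v * w : ℝ) : ℂ) * I)

lemma hasDerivAt_psi {H : ℝ} (hH : 0 < H) (w : ℝ) : HasDerivAt (psi H) (psi1 H w) w := by
  unfold psi psi1
  have h := intervalIntegral.hasDerivAt_integral_of_dominated_loc_of_deriv_le (μ := volume)
    (F := fun w v : ℝ => cexp (((v * w : ℝ) : ℂ) * I))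
    (F' := fun w v : ℝ => ((v : ℂ) * I) * cexp (((v * w : ℝ) : ℂ) * I))
    (x₀ := w) (s := univ) (bound := fun _ => H) (a := 0) (b := H) univ_mem
    (Eventually.of_forall fun w => (by fun_prop : Continuous fun v : ℝ =>
      cexp (((v * w : ℝ) : ℂ) * I)).aestronglyMeasurable)
    ((by fun_prop : Continuous fun v : ℝ => cexp (((v * w : ℝ) : ℂ) * I)).intervalIntegrable _ _)
    ((by fun_prop : Continuous fun v : ℝ =>
      ((v : ℂ) * I) * cexp (((v * w : ℝ) : ℂ) * I)).aestronglyMeasurable)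
    (Eventually.of_forall fun v hv w _ => by
      rw [uIoc_of_le hH.le] at hv
      rw [norm_mul, Complex.norm_exp_ofReal_mul_I, mul_one, norm_mul, Complex.norm_I,
        Complex.norm_real, mul_one, Real.norm_of_nonneg hv.1.le]
      exact hv.2)
    (continuous_const.intervalIntegrable _ _)
    (Eventually.of_forall fun v _ w _ => by
      have h1 : HasDerivAt (fun w : ℝ => ((v * w : ℝ) : ℂ) * I) ((v : ℂ) * I) w := by
        have h2 : HasDerivAt (fun w : ℝ => v * w) v w := by
          simpa using (hasDerivAt_id w).const_mul v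
        exact h2.ofReal_comp.mul_const I
      have h3 := h1.cexp
      rw [mul_comm] at h3
      exact h3)
  exact h.2.const_mul _

lemma norm_psi1_le {H : ℝ} (hH : 0 < H) (w : ℝ) : ‖psi1 H w‖ ≤ H := by
  unfold psi1
  rw [norm_mul, Complex.norm_real, Real.norm_of_nonneg (inv_nonneg.2 hH.le)]
  have h1 : ‖∫ v in (0 : ℝ)..H, ((v : ℂ) * I) * cexp (((v * w : ℝ) : ℂ) * I)‖ ≤ H * |H - 0| :=
    intervalIntegral.norm_integral_le_of_norm_le_const fun v hv => by
      rw [uIoc_of_le hH.le] at hv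
      rw [norm_mul, Complex.norm_exp_ofReal_mul_I, mul_one, norm_mul, Complex.norm_I,
        Complex.norm_real, mul_one, Real.norm_of_nonneg hv.1.le]
      exact hv.2
  rw [sub_zero, abs_of_pos hH] at h1
  calc H⁻¹ * ‖∫ v in (0 : ℝ)..H, ((v : ℂ) * I) * cexp (((v * w : ℝ) : ℂ) * I)‖ ≤
      H⁻¹ * (H * H) := by gcongr
    _ = H := by
      field_simp

lemma continuous_psi1 (H : ℝ) : Continuous (psi1 H) := by
  unfold psi1
  refine continuous_const.mul ?_
  apply intervalIntegral.continuous_parametric_intervalIntegral_of_continuous'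
  unfold Function.uncurry
  fun_prop

end Pool.Agent.H39.MZ
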