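import Pool.Agent.H39.MZ.Smooth
import Pool.Agent.H39.MZ.Expand
import Pool.Agent.H39.MZ.PhaseM

/-!
Module MS, part 4: the model for the short average and the pointwise bound.
-/

set_option autoImplicit false

open Complex MeasureTheory Set Filter

namespace Pool.Agent.H39.MZ

open Pool.Agent.H24.MR (nit)
open Pool.Agent.H19.DL

lemma nit_eq (k : ℕ) (t : ℝ) : nit k t = cexp (((-(t * Real.log k) : ℝ) : ℂ) * I) := by
  unfold nit
  congr 1
  push_cast
  ring

lemma norm_exp_sub (a b : ℝ) : ‖cexp ((a : ℂ) * I) - cexp ((b : ℂ) * I)‖ ≤ |a - b| := by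
  have h1 : cexp ((a : ℂ) * I) - cexp ((b : ℂ) * I) =
      cexp ((b : ℂ) * I) * (cexp (I * ((a - b : ℝ) : ℂ)) - 1) := by
    rw [mul_sub, ← Complex.exp_add, mul_one]
    congr 2
    push_cast
    ring
  rw [h1, norm_mul, Complex.norm_exp_ofReal_mul_I, one_mul]
  exact Real.norm_exp_I_mul_ofReal_sub_one_le

/-- the model for the short average -/
lemma approx {N : ℕ} {a : ℕ → ℂ} {Yt : ℝ → ℂ} (hY : Continuous Yt) {κ : ℂ} {d B η C t₀ T H : ℝ}
    (hκ : ‖κ‖ = 1) (hC : 0 ≤ C)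
    (hmain : ∀ t, t₀ ≤ t → ‖Yt t - κ * cexp (((th d B η t : ℝ) : ℂ) * I)‖ ≤ C / t)
    (hT : 2 ≤ T) (hH : 0 < H) {x : ℝ} (hx : T / 2 ≤ x) (hx0 : t₀ ≤ x) :
    ‖avg (fun t => (∑ k ∈ Finset.Icc 1 N, a k * nit k t) * Yt t) H x -
        κ * cexp (((th d B η x : ℝ) : ℂ) * I) * ∑ k ∈ Finset.Icc 1 N,
          a k * psi H (th1 d B η x - Real.log k) * cexp (((-(x * Real.log k) : ℝ) : ℂ) * I)‖ ≤
      (∑ k ∈ Finset.Icc 1 N, ‖a k‖) * ((2 * C + 2 * (|d| + |η|) * H ^ 2) / T) := by
  set S := Finset.Icc 1 N with hS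
  set P : ℝ → ℂ := fun t => ∑ k ∈ S, a k * nit k t with hP
  have hPc : Continuous P := continuous_finsetSum _ fun k _ => continuous_const.mul
    (continuous_nit k)
  have hPle : ∀ t, ‖P t‖ ≤ ∑ k ∈ S, ‖a k‖ := fun t => by
    refine (norm_sum_le _ _).trans (Finset.sum_le_sum fun m _ => ?_)
    rw [norm_mul, norm_nit, mul_one]
  set Q : ℝ → ℂ := fun v => κ * cexp (((th d B η x + v * th1 d B η x : ℝ) : ℂ) * I) with hQ
  have hQc : Continuous Q := by
    simp only [hQ]
    fun_prop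
  have e1 : κ * cexp (((th d B η x : ℝ) : ℂ) * I) * ∑ k ∈ S,
      a k * psi H (th1 d B η x - Real.log k) * cexp (((-(x * Real.log k) : ℝ) : ℂ) * I) =
      ((H⁻¹ : ℝ) : ℂ) * ∫ v in (0 : ℝ)..H, P (x + v) * Q v := by
    have e2 : ∀ v, P (x + v) * Q v = ∑ k ∈ S, (κ * cexp (((th d B η x : ℝ) : ℂ) * I) * a k *
        cexp (((-(x * Real.log k) : ℝ) : ℂ) * I)) *
          cexp (((v * (th1 d B η x - Real.log k) : ℝ) : ℂ) * I) := by
      intro v
      simp only [hP, hQ]
      rw [Finset.sum_mul]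
      refine Finset.sum_congr rfl fun k _ => ?_
      rw [nit_eq]
      have e3 : cexp (((-((x + v) * Real.log k) : ℝ) : ℂ) * I) *
          cexp (((th d B η x + v * th1 d B η x : ℝ) : ℂ) * I) =
          cexp (((th d B η x : ℝ) : ℂ) * I) * cexp (((-(x * Real.log k) : ℝ) : ℂ) * I) *
          cexp (((v * (th1 d B η x - Real.log k) : ℝ) : ℂ) * I) := by
        rw [← Complex.exp_add, ← Complex.exp_add, ← Complex.exp_add]
        congr 1
        push_cast
        ring
      linear_combination (a k * κ) * e3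
    simp_rw [e2]
    rw [intervalIntegral.integral_finsetSum]
    · rw [Finset.mul_sum, Finset.mul_sum]
      refine Finset.sum_congr rfl fun k _ => ?_
      rw [intervalIntegral.integral_const_mul]
      unfold psi
      ring
    · intro k _
      exact (by fun_prop : Continuous fun v : ℝ => (κ * cexp (((th d B η x : ℝ) : ℂ) * I) * a k *
        cexp (((-(x * Real.log k) : ℝ) : ℂ) * I)) *
          cexp (((v * (th1 d B η x - Real.log k) : ℝ) : ℂ) * I)).intervalIntegrable _ _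
  rw [e1]
  unfold avg
  rw [← mul_sub, ← intervalIntegral.integral_sub]
  · rw [norm_mul, Complex.norm_real, Real.norm_of_nonneg (inv_nonneg.2 hH.le)]
    set M : ℝ := (∑ k ∈ S, ‖a k‖) * ((2 * C + 2 * (|d| + |η|) * H ^ 2) / T) with hM
    have hb : ∀ v ∈ uIoc 0 H, ‖P (x + v) * Yt (x + v) - P (x + v) * Q v‖ ≤ M := by
      intro v hv
      rw [uIoc_of_le hH.le] at hv
      rw [← mul_sub, norm_mul]
      refine mul_le_mul (hPle _) ?_ (norm_nonneg _) (Finset.sum_nonneg fun k _ => norm_nonneg _)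
      have h1 := hmain (x + v) (by linarith [hv.1])
      have h2 : C / (x + v) ≤ 2 * C / T := by
        rw [div_le_div_iff₀ (by linarith [hv.1]) (by linarith)]
        nlinarith [hv.1]
      have h3 : ‖κ * cexp (((th d B η (x + v) : ℝ) : ℂ) * I) - Q v‖ ≤
          2 * (|d| + |η|) / T * H ^ 2 := by
        simp only [hQ]
        rw [← mul_sub, norm_mul, hκ, one_mul]
        refine (norm_exp_sub _ _).trans ?_
        have h4 := th_taylor (d := d) (B := B) (η := η) hT hx hv.1.le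
        rw [sub_sub] at h4
        refine h4.trans ?_
        have h5 : v ^ 2 ≤ H ^ 2 := pow_le_pow_left₀ hv.1.le hv.2 2
        have h6 : 0 ≤ 2 * (|d| + |η|) / T := by positivity
        exact mul_le_mul_of_nonneg_left h5 h6
      calc ‖Yt (x + v) - Q v‖ = ‖(Yt (x + v) - κ * cexp (((th d B η (x + v) : ℝ) : ℂ) * I)) +
            (κ * cexp (((th d B η (x + v) : ℝ) : ℂ) * I) - Q v)‖ := by
            congr 1
            ring
        _ ≤ 2 * C / T + 2 * (|d| + |η|) / T * H ^ 2 :=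
            (norm_add_le _ _).trans (add_le_add (h1.trans h2) h3)
        _ = (2 * C + 2 * (|d| + |η|) * H ^ 2) / T := by ring
    have h7 := intervalIntegral.norm_integral_le_of_norm_le_const hb
    rw [sub_zero, abs_of_pos hH] at h7
    calc H⁻¹ * ‖∫ v in (0 : ℝ)..H, (P (x + v) * Yt (x + v) - P (x + v) * Q v)‖ ≤
        H⁻¹ * (M * H) := by gcongr
      _ = M := by
        field_simp
  · exact ((hPc.comp (by fun_prop)).mul (hY.comp (by fun_prop))).intervalIntegrable _ _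
  · exact ((hPc.comp (by fun_prop)).mul hQc).intervalIntegrable _ _

/-- the pointwise bound -/
lemma pointwise {N : ℕ} {a : ℕ → ℂ} {S H lam : ℝ} (hS1 : 1 ≤ S)
    (hS2 : ∑ k ∈ Finset.Icc 1 N, ‖a k‖ ^ 2 ≤ S)
    (hS4 : ∑ k ∈ Finset.Icc 1 N, (k : ℝ) * ‖a k‖ ^ 4 ≤ S) (hH : 1 ≤ H)
    (hlam : Real.exp (H ^ (-(1 / 2) : ℝ) - lam) ≤ H ^ (-(1 / 2) : ℝ)) :
    ∑ k ∈ Finset.Icc 1 N, ‖a k‖ ^ 2 * ‖psi H (lam - Real.log k)‖ ^ 2 ≤
      8 * H ^ (-(1 / 4) : ℝ) * S := by
  classical
  have hH0 : 0 < H := by linarith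
  set h : ℝ := H ^ (-(1 / 2) : ℝ) with hh
  have hh0 : 0 < h := Real.rpow_pos_of_pos hH0 _
  have hh1 : h ≤ 1 := Real.rpow_le_one_of_one_le_of_nonpos hH (by norm_num)
  have hh2 : h ^ 2 * H = 1 := by
    rw [hh, ← Real.rpow_natCast, ← Real.rpow_mul hH0.le, ← Real.rpow_add_one hH0.ne']
    norm_num
  set g : ℝ := H ^ (-(1 / 4) : ℝ) with hg
  have hg0 : 0 < g := Real.rpow_pos_of_pos hH0 _
  have hg2 : g ^ 2 = h := by
    rw [hg, hh, ← Real.rpow_natCast, ← Real.rpow_mul hH0.le]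
    norm_num
  have hg1 : g ≤ 1 := Real.rpow_le_one_of_one_le_of_nonpos hH (by norm_num)
  set I1 := (Finset.Icc 1 N).filter (fun k : ℕ => |Real.log (k : ℝ) - lam| ≤ h) with hI1
  set I2 := (Finset.Icc 1 N).filter (fun k : ℕ => ¬ |Real.log (k : ℝ) - lam| ≤ h) with hI2
  have hsplit : ∑ k ∈ Finset.Icc 1 N, ‖a k‖ ^ 2 * ‖psi H (lam - Real.log k)‖ ^ 2 =
      ∑ k ∈ I1, ‖a k‖ ^ 2 * ‖psi H (lam - Real.log k)‖ ^ 2 +
        ∑ k ∈ I2, ‖a k‖ ^ 2 * ‖psi H (lam - Real.log k)‖ ^ 2 :=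
    (Finset.sum_filter_add_sum_filter_not _ _ _).symm
  -- far
  have hfar : ∑ k ∈ I2, ‖a k‖ ^ 2 * ‖psi H (lam - Real.log k)‖ ^ 2 ≤ 4 * g * S := by
    have h1 : ∀ k ∈ I2, ‖a k‖ ^ 2 * ‖psi H (lam - Real.log k)‖ ^ 2 ≤ ‖a k‖ ^ 2 * (4 * g) := by
      intro k hk
      have h2 := not_le.1 (Finset.mem_filter.1 hk).2
      rw [abs_sub_comm] at h2
      apply mul_le_mul_of_nonneg_left _ (by positivity)
      have hw : lam - Real.log k ≠ 0 := by
        intro h0
        rw [h0, abs_zero] at h2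
        linarith
      have h3 := norm_psi_le hH0 hw
      have h4 : 2 / (H * |lam - Real.log k|) ≤ 2 * h := by
        rw [div_le_iff₀ (by positivity)]
        have : h * (H * h) = 1 := by nlinarith
        have h5 : h * (H * h) ≤ h * (H * |lam - Real.log k|) := by gcongr
        nlinarith
      have h5 : ‖psi H (lam - Real.log k)‖ ^ 2 ≤ (2 * h) ^ 2 :=
        pow_le_pow_left₀ (norm_nonneg _) (h3.trans h4) 2
      have h6 : (2 * h) ^ 2 ≤ 4 * g := by
        have h7 : h ^ 2 ≤ g := by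
          rw [← hg2]
          calc (g ^ 2) ^ 2 = g * g ^ 3 := by ring
            _ ≤ g * 1 := by
              gcongr
              exact pow_le_one₀ hg0.le hg1
            _ = g := mul_one g
        nlinarith
      exact h5.trans h6
    calc _ ≤ ∑ k ∈ I2, ‖a k‖ ^ 2 * (4 * g) := Finset.sum_le_sum h1
      _ ≤ ∑ k ∈ Finset.Icc 1 N, ‖a k‖ ^ 2 * (4 * g) :=
          Finset.sum_le_sum_of_subset_of_nonneg (Finset.filter_subset _ _)
            fun k _ _ => by positivity
      _ = (∑ k ∈ Finset.Icc 1 N, ‖a k‖ ^ 2) * (4 * g) := by rw [Finset.sum_mul]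
      _ ≤ S * (4 * g) := by gcongr
      _ = 4 * g * S := by ring
  -- near
  have hnear : ∑ k ∈ I1, ‖a k‖ ^ 2 * ‖psi H (lam - Real.log k)‖ ^ 2 ≤ 4 * g * S := by
    have h1 : ∑ k ∈ I1, ‖a k‖ ^ 2 * ‖psi H (lam - Real.log k)‖ ^ 2 ≤ ∑ k ∈ I1, ‖a k‖ ^ 2 := by
      refine Finset.sum_le_sum fun k _ => ?_
      have : ‖psi H (lam - Real.log k)‖ ^ 2 ≤ 1 := pow_le_one₀ (norm_nonneg _)
        (norm_psi_le_one hH0 _)
      exact mul_le_of_le_one_right (by positivity) this
    have h2 : (∑ k ∈ I1, ‖a k‖ ^ 2) ^ 2 ≤ (∑ k ∈ I1, (1 : ℝ) / k) *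
        ∑ k ∈ I1, (k : ℝ) * ‖a k‖ ^ 4 := by
      apply Finset.sum_sq_le_sum_mul_sum_of_sq_le_mul
      · intro k _
        positivity
      · intro k _
        positivity
      · intro k hk
        have hk1 := (Finset.mem_Icc.1 (Finset.mem_filter.1 hk).1).1
        have hk0 : (0 : ℝ) < k := by exact_mod_cast hk1
        apply le_of_eq
        field_simp
    have h3 : ∑ k ∈ I1, (1 : ℝ) / k ≤ 16 * h := by
      refine (short_sum N lam h hh0.le).trans ?_
      have h4 : Real.exp (2 * h) - 1 ≤ 15 * h := by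
        have h5 : 1 - 2 * h ≤ Real.exp (-(2 * h)) := by
          have := Real.add_one_le_exp (-(2 * h))
          linarith
        have h6 : Real.exp (2 * h) * Real.exp (-(2 * h)) = 1 := by
          rw [← Real.exp_add]
          simp
        have h7 : Real.exp (2 * h) ≤ 7.5 := by
          have h8 : Real.exp (2 * h) ≤ Real.exp 2 := Real.exp_le_exp.2 (by linarith)
          have h9 : Real.exp 2 = Real.exp 1 * Real.exp 1 := by
            rw [← Real.exp_add]
            norm_num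
          have h10 := Real.exp_one_lt_d9
          have h11 := Real.exp_pos 1
          rw [h9] at h8
          nlinarith
        have h8 : Real.exp (2 * h) * (1 - 2 * h) ≤ 1 := by
          calc Real.exp (2 * h) * (1 - 2 * h) ≤ Real.exp (2 * h) * Real.exp (-(2 * h)) :=
                mul_le_mul_of_nonneg_left h5 (Real.exp_pos _).le
            _ = 1 := h6
        nlinarith
      linarith
    have h5 : ∑ k ∈ I1, (k : ℝ) * ‖a k‖ ^ 4 ≤ S := by
      refine (Finset.sum_le_sum_of_subset_of_nonneg (Finset.filter_subset _ _)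
        fun k _ _ => ?_).trans hS4
      positivity
    have h6 : (∑ k ∈ I1, ‖a k‖ ^ 2) ^ 2 ≤ (4 * g * S) ^ 2 := by
      refine h2.trans ?_
      calc (∑ k ∈ I1, (1 : ℝ) / k) * ∑ k ∈ I1, (k : ℝ) * ‖a k‖ ^ 4 ≤ (16 * h) * S := by
            apply mul_le_mul h3 h5
            · exact Finset.sum_nonneg fun k _ => by positivity
            · positivity
        _ = (4 * g) ^ 2 * S := by
            rw [← hg2]
            ring
        _ ≤ (4 * g) ^ 2 * S ^ 2 := by
            gcongr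
            nlinarith
        _ = (4 * g * S) ^ 2 := by ring
    exact h1.trans ((pow_le_pow_iff_left₀ (Finset.sum_nonneg fun k _ => by positivity)
      (by positivity) (by norm_num)).1 h6)
  rw [hsplit]
  linarith

end Pool.Agent.H39.MZ
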