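import Pool.Agent.H25.MZ.Targets
import Pool.Agent.H11.DL.Base

/-!
Module MS, part 1: removing the Gaussian, by the theorem of Fubini and the inequality of
Cauchy and Schwarz.
-/

set_option autoImplicit false

open Complex MeasureTheory Set Filter

namespace Pool.Agent.H39.MZ

/-- the theorem of Fubini for continuous functions on a rectangle -/
lemma swap_cont {E : Type*} [NormedAddCommGroup E] [NormedSpace ℝ E] (f : ℝ → ℝ → E)
    (hf : Continuous (Function.uncurry f)) {a b c d : ℝ} (hab : a ≤ b) (hcd : c ≤ d) :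
    ∫ x in a..b, ∫ y in c..d, f x y = ∫ y in c..d, ∫ x in a..b, f x y := by
  have hint : Integrable (Function.uncurry f)
      ((volume.restrict (Ioc a b)).prod (volume.restrict (Ioc c d))) := by
    rw [Measure.prod_restrict]
    have h1 : IntegrableOn (Function.uncurry f) (Icc a b ×ˢ Icc c d)
        ((volume : Measure ℝ).prod volume) :=
      hf.continuousOn.integrableOn_compact (isCompact_Icc.prod isCompact_Icc)
    exact h1.mono_set (Set.prod_mono Ioc_subset_Icc_self Ioc_subset_Icc_self)
  have h := integral_integral_swap hint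
  rw [intervalIntegral.integral_of_le hab, intervalIntegral.integral_of_le hcd]
  calc ∫ x in Ioc a b, ∫ y in c..d, f x y = ∫ x in Ioc a b, ∫ y in Ioc c d, f x y := by
        refine integral_congr_ae (Eventually.of_forall fun x => ?_)
        exact intervalIntegral.integral_of_le hcd
    _ = ∫ y in Ioc c d, ∫ x in Ioc a b, f x y := h
    _ = ∫ y in Ioc c d, ∫ x in a..b, f x y := by
        refine integral_congr_ae (Eventually.of_forall fun y => ?_)
        exact (intervalIntegral.integral_of_le hab).symm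

/-- the inequality of Jensen for the square -/
lemma jensen_sq {g : ℝ → ℂ} {φ : ℝ → ℂ} (hg : Continuous g) (hφ : Continuous φ) {a b : ℝ}
    (hab : a ≤ b) (h1 : ∫ y in a..b, ‖φ y‖ ≤ 1) :
    ‖∫ y in a..b, g y * φ y‖ ^ 2 ≤ ∫ y in a..b, ‖φ y‖ * ‖g y‖ ^ 2 := by
  set m : ℝ := ∫ y in a..b, ‖φ y‖ * ‖g y‖ with hm
  have h2 : ‖∫ y in a..b, g y * φ y‖ ≤ m := by
    refine (intervalIntegral.norm_integral_le_integral_norm hab).trans (le_of_eq ?_)
    refine intervalIntegral.integral_congr fun y _ => ?_
    simp only [norm_mul]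
    ring
  have hm0 : 0 ≤ m := (norm_nonneg _).trans h2
  have h3 : 0 ≤ ∫ y in a..b, ‖φ y‖ * (‖g y‖ - m) ^ 2 :=
    intervalIntegral.integral_nonneg hab fun y _ => by positivity
  have h4 : ∫ y in a..b, ‖φ y‖ * (‖g y‖ - m) ^ 2 =
      (∫ y in a..b, ‖φ y‖ * ‖g y‖ ^ 2) - 2 * m * m + m ^ 2 * ∫ y in a..b, ‖φ y‖ := by
    have e1 : ∀ y, ‖φ y‖ * (‖g y‖ - m) ^ 2 =
        (‖φ y‖ * ‖g y‖ ^ 2 - 2 * m * (‖φ y‖ * ‖g y‖)) + m ^ 2 * ‖φ y‖ := fun y => by ring
    simp_rw [e1]
    rw [intervalIntegral.integral_add, intervalIntegral.integral_sub,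
      intervalIntegral.integral_const_mul, intervalIntegral.integral_const_mul]
    · exact (hφ.norm.mul (hg.norm.pow 2)).intervalIntegrable _ _
    · exact (continuous_const.mul (hφ.norm.mul hg.norm)).intervalIntegrable _ _
    · exact ((hφ.norm.mul (hg.norm.pow 2)).sub
        (continuous_const.mul (hφ.norm.mul hg.norm))).intervalIntegrable _ _
    · exact (continuous_const.mul hφ.norm).intervalIntegrable _ _
  have h5 : m ^ 2 * ∫ y in a..b, ‖φ y‖ ≤ m ^ 2 * 1 :=
    mul_le_mul_of_nonneg_left h1 (sq_nonneg m)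
  have h6 : ‖∫ y in a..b, g y * φ y‖ ^ 2 ≤ m ^ 2 :=
    pow_le_pow_left₀ (norm_nonneg _) h2 2
  nlinarith

/-- a short average -/
noncomputable def avg (G : ℝ → ℂ) (H x : ℝ) : ℂ := ((H⁻¹ : ℝ) : ℂ) * ∫ v in (0 : ℝ)..H, G (x + v)

lemma continuous_avg {G : ℝ → ℂ} (hG : Continuous G) (H : ℝ) : Continuous (avg G H) := by
  unfold avg
  refine continuous_const.mul ?_
  apply intervalIntegral.continuous_parametric_intervalIntegral_of_continuous'
  fun_prop

/-- the smoothed average is controlled by the short average -/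
lemma smooth {G φ : ℝ → ℂ} (hG : Continuous G) (hφ : Continuous φ) {R H a W : ℝ} (hR : 0 ≤ R)
    (hH : 0 ≤ H) (hW : 0 ≤ W) (h1 : ∫ y in (-R)..R, ‖φ y‖ ≤ 1) :
    ∫ u in a..(a + W), ‖((H⁻¹ : ℝ) : ℂ) * ∫ v in (0 : ℝ)..H, ∫ y in (-R)..R,
        G (u + v + y) * φ y‖ ^ 2 ≤
      ∫ x in (a - R)..(a + W + R), ‖avg G H x‖ ^ 2 := by
  have hRR : -R ≤ R := by linarith
  have hav := continuous_avg hG H
  have e1 : ∀ u, ((H⁻¹ : ℝ) : ℂ) * ∫ v in (0 : ℝ)..H, ∫ y in (-R)..R, G (u + v + y) * φ y =
      ∫ y in (-R)..R, avg G H (u + y) * φ y := by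
    intro u
    rw [swap_cont (fun v y => G (u + v + y) * φ y) (by
      unfold Function.uncurry
      fun_prop) hH hRR, ← intervalIntegral.integral_const_mul]
    refine intervalIntegral.integral_congr fun y _ => ?_
    simp only [avg]
    rw [intervalIntegral.integral_mul_const, mul_assoc]
    congr 2
    refine intervalIntegral.integral_congr fun v _ => ?_
    have : u + v + y = u + y + v := by ring
    simp only [this]
  simp_rw [e1]
  set M : ℝ := ∫ x in (a - R)..(a + W + R), ‖avg G H x‖ ^ 2 with hM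
  have hM0 : 0 ≤ M := intervalIntegral.integral_nonneg (by linarith) fun x _ => by positivity
  have h2 : ∫ u in a..(a + W), ‖∫ y in (-R)..R, avg G H (u + y) * φ y‖ ^ 2 ≤
      ∫ u in a..(a + W), ∫ y in (-R)..R, ‖φ y‖ * ‖avg G H (u + y)‖ ^ 2 := by
    apply intervalIntegral.integral_mono_on (by linarith)
    · apply Continuous.intervalIntegrable
      apply Continuous.pow
      apply Continuous.norm
      apply intervalIntegral.continuous_parametric_intervalIntegral_of_continuous'
      unfold Function.uncurry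
      fun_prop
    · apply Continuous.intervalIntegrable
      apply intervalIntegral.continuous_parametric_intervalIntegral_of_continuous'
      unfold Function.uncurry
      fun_prop
    · intro u _
      exact jensen_sq (hav.comp (by fun_prop)) hφ hRR h1
  have h3 : ∫ u in a..(a + W), ∫ y in (-R)..R, ‖φ y‖ * ‖avg G H (u + y)‖ ^ 2 =
      ∫ y in (-R)..R, ∫ u in a..(a + W), ‖φ y‖ * ‖avg G H (u + y)‖ ^ 2 := by
    apply swap_cont (fun u y => ‖φ y‖ * ‖avg G H (u + y)‖ ^ 2) _ (by linarith) hRR
    unfold Function.uncurry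
    fun_prop
  have h4 : ∫ y in (-R)..R, ∫ u in a..(a + W), ‖φ y‖ * ‖avg G H (u + y)‖ ^ 2 ≤
      ∫ y in (-R)..R, ‖φ y‖ * M := by
    apply intervalIntegral.integral_mono_on hRR
    · apply Continuous.intervalIntegrable
      apply intervalIntegral.continuous_parametric_intervalIntegral_of_continuous'
      unfold Function.uncurry
      fun_prop
    · exact (hφ.norm.mul continuous_const).intervalIntegrable _ _
    · intro y hy
      rw [intervalIntegral.integral_const_mul]
      apply mul_le_mul_of_nonneg_left _ (norm_nonneg _)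
      rw [intervalIntegral.integral_comp_add_right (fun x => ‖avg G H x‖ ^ 2)]
      apply intervalIntegral.integral_mono_interval
      · linarith [hy.1]
      · linarith
      · linarith [hy.2]
      · exact Eventually.of_forall fun x => by positivity
      · exact (hav.norm.pow 2).intervalIntegrable _ _
  have h5 : ∫ y in (-R)..R, ‖φ y‖ * M ≤ M := by
    rw [intervalIntegral.integral_mul_const]
    calc _ ≤ 1 * M := mul_le_mul_of_nonneg_right h1 hM0
      _ = M := one_mul M
  linarith

end Pool.Agent.H39.MZ
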